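import Mathlib

set_option autoImplicit false

open Finset
open scoped ArithmeticFunction.sigma

namespace Pool.Agent.Helper1

/-- number of ordered pairs of elements of `T` with equal `g`-value -/
def energy (T : Finset ℕ) (g : ℕ → ℕ) : ℕ := #{p ∈ T ×ˢ T | g p.1 = g p.2}

lemma fiber_sq (T : Finset ℕ) (g : ℕ → ℕ) (v : ℕ) :
    #{p ∈ {p ∈ T ×ˢ T | g p.1 = g p.2} | g p.1 = v} = (#{t ∈ T | g t = v}) ^ 2 := by
  rw [sq, ← card_product]
  congr 1
  ext ⟨a, b⟩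
  simp only [mem_filter, mem_product]
  constructor
  · rintro ⟨⟨⟨ha, hb⟩, h1⟩, h2⟩
    exact ⟨⟨ha, h2⟩, hb, h1 ▸ h2⟩
  · rintro ⟨⟨ha, h2⟩, hb, h3⟩
    exact ⟨⟨⟨ha, hb⟩, h2.trans h3.symm⟩, h2⟩

lemma energy_eq_sum_sq (T : Finset ℕ) (g : ℕ → ℕ) (V : Finset ℕ) (hV : T.image g ⊆ V) :
    energy T g = ∑ v ∈ V, (#{t ∈ T | g t = v}) ^ 2 := by
  unfold energy
  rw [card_eq_sum_card_fiberwise (f := fun p => g p.1) (t := V)]
  · exact sum_congr rfl fun v _ => fiber_sq T g v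
  · intro p hp
    simp only [coe_filter, mem_product, Set.mem_ofPred_eq] at hp
    exact mem_coe.2 (hV (mem_image_of_mem g hp.1.1))

lemma sum_sq_le_energy (T : Finset ℕ) (g : ℕ → ℕ) (V : Finset ℕ) :
    ∑ v ∈ V, (#{t ∈ T | g t = v}) ^ 2 ≤ energy T g := by
  rw [energy_eq_sum_sq T g (V ∪ T.image g) subset_union_right]
  exact sum_le_sum_of_subset subset_union_left

lemma energy_mono {S T : Finset ℕ} (h : S ⊆ T) (g : ℕ → ℕ) : energy S g ≤ energy T g :=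
  card_le_card (filter_subset_filter _ (product_subset_product h h))

/-- weighted Cauchy-Schwarz for energies -/
lemma energy_le_weighted {ι : Type*} (I : Finset ι) (T : Finset ℕ) (g : ℕ → ℕ)
    (Ti : ι → Finset ℕ) (lam : ι → ℝ) (hlam : ∀ i ∈ I, 0 < lam i)
    (hcov : ∀ t ∈ T, ∃ i ∈ I, t ∈ Ti i) :
    (energy T g : ℝ) ≤ (∑ i ∈ I, lam i) * ∑ i ∈ I, (energy (Ti i) g : ℝ) / lam i := by
  classical
  rw [energy_eq_sum_sq T g _ (Subset.refl _)]
  push_cast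
  have key : ∀ v ∈ T.image g, ((#{t ∈ T | g t = v} : ℕ) : ℝ) ^ 2 ≤
      (∑ i ∈ I, lam i) * ∑ i ∈ I, ((#{t ∈ Ti i | g t = v} : ℕ) : ℝ) ^ 2 / lam i := by
    intro v _
    have h1 : ((#{t ∈ T | g t = v} : ℕ) : ℝ) ≤ ∑ i ∈ I, ((#{t ∈ Ti i | g t = v} : ℕ) : ℝ) := by
      have : #{t ∈ T | g t = v} ≤ ∑ i ∈ I, #{t ∈ Ti i | g t = v} := by
        refine (card_le_card ?_).trans card_biUnion_le
        intro t ht
        simp only [mem_filter, mem_biUnion] at ht ⊢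
        obtain ⟨i, hi, hti⟩ := hcov t ht.1
        exact ⟨i, hi, hti, ht.2⟩
      exact_mod_cast this
    refine (pow_le_pow_left₀ (by positivity) h1 2).trans ?_
    refine sum_sq_le_sum_mul_sum_of_sq_eq_mul I (fun i hi => (hlam i hi).le)
      (fun i hi => div_nonneg (by positivity) (hlam i hi).le) (fun i hi => ?_)
    have := (hlam i hi).ne'
    field_simp
  refine (sum_le_sum key).trans ?_
  rw [← mul_sum]
  refine mul_le_mul_of_nonneg_left ?_ (sum_nonneg fun i hi => (hlam i hi).le)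
  rw [sum_comm]
  refine sum_le_sum fun i hi => ?_
  rw [← sum_div]
  refine div_le_div_of_nonneg_right ?_ (hlam i hi).le
  exact_mod_cast sum_sq_le_energy (Ti i) g (T.image g)

lemma sigma_mul {m n : ℕ} (h : Nat.Coprime m n) : σ 1 (m * n) = σ 1 m * σ 1 n :=
  ArithmeticFunction.isMultiplicative_sigma.map_mul_of_coprime h

lemma sigma_pos {n : ℕ} (h : n ≠ 0) : 0 < σ 1 n := by
  rw [ArithmeticFunction.sigma_one_apply]
  exact sum_pos (fun d hd => Nat.pos_of_mem_divisors hd) ⟨1, Nat.one_mem_divisors.2 h⟩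

lemma exists_decomp (n : ℕ) : n ≠ 0 → ∃ a c s : ℕ, n = a ^ 3 * c ^ 2 * s ∧ Squarefree s ∧
    Nat.Coprime (a ^ 3 * c ^ 2) s := by
  induction n using Nat.recOnPosPrimePosCoprime with
  | prime_pow p k hp hk =>
    intro _
    rcases Nat.even_or_odd' k with ⟨j, rfl | rfl⟩
    · exact ⟨1, p ^ j, 1, by ring, squarefree_one, Nat.coprime_one_right _⟩
    · rcases Nat.eq_zero_or_pos j with rfl | hj
      · exact ⟨1, 1, p, by ring, hp.squarefree, by simp⟩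
      · obtain ⟨i, rfl⟩ : ∃ i, j = i + 1 := ⟨j - 1, by omega⟩
        exact ⟨p, p ^ i, 1, by ring, squarefree_one, Nat.coprime_one_right _⟩
  | zero => intro h; exact absurd rfl h
  | one => intro _; exact ⟨1, 1, 1, by norm_num, squarefree_one, by norm_num⟩
  | coprime a b ha hb hab iha ihb =>
    intro _
    obtain ⟨a₁, c₁, s₁, h₁, hs₁, hc₁⟩ := iha (by omega)
    obtain ⟨a₂, c₂, s₂, h₂, hs₂, hc₂⟩ := ihb (by omega)
    have hab' : Nat.Coprime (a₁ ^ 3 * c₁ ^ 2 * s₁) (a₂ ^ 3 * c₂ ^ 2 * s₂) := by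
      rw [← h₁, ← h₂]; exact hab
    have e1 : Nat.Coprime (a₁ ^ 3 * c₁ ^ 2) s₂ :=
      (Nat.Coprime.coprime_mul_right hab').coprime_mul_left_right
    have e2 : Nat.Coprime (a₂ ^ 3 * c₂ ^ 2) s₁ :=
      ((Nat.Coprime.coprime_mul_left hab').coprime_mul_right_right).symm
    have e3 : Nat.Coprime s₁ s₂ :=
      (Nat.Coprime.coprime_mul_left hab').coprime_mul_left_right
    refine ⟨a₁ * a₂, c₁ * c₂, s₁ * s₂, ?_, ?_, ?_⟩
    · rw [h₁, h₂]; ring
    · exact (Nat.squarefree_mul e3).2 ⟨hs₁, hs₂⟩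
    · have : (a₁ * a₂) ^ 3 * (c₁ * c₂) ^ 2 = (a₁ ^ 3 * c₁ ^ 2) * (a₂ ^ 3 * c₂ ^ 2) := by ring
      rw [this]
      exact Nat.Coprime.mul_left (hc₁.mul_right e1) (e2.mul_right hc₂)

end Pool.Agent.Helper1
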