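import Mathlib
import Pool.Agent.Helper1.SigmaEnergy

set_option autoImplicit false

open Finset
open scoped ArithmeticFunction.sigma

namespace Pool.Agent.Helper1

/-- squarefree `s` with `1 ≤ s` and `s * m < x` -/
def sqSet (x m : ℕ) : Finset ℕ := {s ∈ Ico 1 x | Squarefree s ∧ s * m < x}

lemma mem_sqSet {x m s : ℕ} : s ∈ sqSet x m ↔ 1 ≤ s ∧ s < x ∧ Squarefree s ∧ s * m < x := by
  simp [sqSet, and_assoc]

open Classical in
/-- the integers below `x` of the form `m * s`, `s` squarefree and coprime to `m` -/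
noncomputable def partSet (x m : ℕ) : Finset ℕ :=
  {n ∈ Ico 1 x | ∃ s, n = m * s ∧ Squarefree s ∧ Nat.Coprime m s}

lemma energy_partSet_le (x m : ℕ) : energy (partSet x m) (σ 1) ≤ energy (sqSet x m) (σ 1) := by
  classical
  rcases Nat.eq_zero_or_pos m with rfl | hm
  · have : partSet x 0 = ∅ := by
      ext n
      simp only [partSet, mem_filter, mem_Ico, notMem_empty, iff_false, not_and]
      rintro ⟨h1, _⟩ ⟨s, hs, _⟩
      omega
    rw [this]; simp [energy]
  unfold energy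
  refine card_le_card_of_injOn (fun p => (p.1 / m, p.2 / m)) ?_ ?_
  · rintro ⟨n, n'⟩ hp
    simp only [coe_filter, mem_product, partSet, mem_filter, mem_Ico, Set.mem_ofPred_eq] at hp
    obtain ⟨⟨⟨⟨h1, h2⟩, s, rfl, hs, hc⟩, ⟨h1', h2'⟩, s', rfl, hs', hc'⟩, hσ⟩ := hp
    simp only [coe_filter, mem_product, mem_sqSet, Set.mem_ofPred_eq, Nat.mul_div_cancel_left _ hm]
    rw [sigma_mul hc, sigma_mul hc'] at hσ
    have hσm := sigma_pos hm.ne'
    refine ⟨⟨⟨?_, ?_, hs, by rwa [mul_comm]⟩, ?_, ?_, hs', by rwa [mul_comm]⟩,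
      Nat.eq_of_mul_eq_mul_left hσm hσ⟩
    · exact Nat.pos_of_ne_zero hs.ne_zero
    · nlinarith
    · exact Nat.pos_of_ne_zero hs'.ne_zero
    · nlinarith
  · rintro ⟨n, n'⟩ hp ⟨k, k'⟩ hq h
    simp only [coe_filter, mem_product, partSet, mem_filter, mem_Ico, Set.mem_ofPred_eq] at hp hq
    obtain ⟨⟨⟨_, s, rfl, _⟩, _, s', rfl, _⟩, _⟩ := hp
    obtain ⟨⟨⟨_, t, rfl, _⟩, _, t', rfl, _⟩, _⟩ := hq
    simp only [Nat.mul_div_cancel_left _ hm, Prod.mk.injEq] at h
    rw [h.1, h.2]

lemma card_primeFactors_le {n x : ℕ} (h0 : n ≠ 0) (h : n ≤ x) : #n.primeFactors ≤ Nat.log 2 x := by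
  apply Nat.le_log_of_pow_le (by norm_num)
  calc 2 ^ #n.primeFactors ≤ ∏ p ∈ n.primeFactors, p :=
        Finset.pow_card_le_prod _ _ _ fun p hp => (Nat.prime_of_mem_primeFactors hp).two_le
    _ ≤ n := Nat.le_of_dvd (Nat.pos_of_ne_zero h0) (Nat.prod_primeFactors_dvd n)
    _ ≤ x := h

/-- primes up to `m` -/
def primesTo (m : ℕ) : Finset ℕ := {g ∈ range (m + 1) | g.Prime}

lemma card_primesTo (m : ℕ) : #(primesTo m) = Nat.primeCounting m := by
  rw [primesTo, Nat.primeCounting, Nat.primeCounting', Nat.count_eq_card_filter_range]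

lemma scale_key (x m : ℕ) (_hm : 1 ≤ m) :
    (∑ p ∈ {p ∈ sqSet x m ×ˢ sqSet x m | σ 1 p.1 = σ 1 p.2},
      #{g ∈ primesTo m | ¬ g ∣ p.1 ∧ ¬ g ∣ p.2}) ≤
      Nat.log 2 x * energy (sqSet x 1) (σ 1) := by
  classical
  rw [← card_sigma]
  calc _ ≤ #(({p ∈ sqSet x 1 ×ˢ sqSet x 1 | σ 1 p.1 = σ 1 p.2}).sigma
        fun p => p.1.primeFactors) := by
        refine card_le_card_of_injOn
          (fun q : (Σ _ : ℕ × ℕ, ℕ) => (⟨(q.2 * q.1.1, q.2 * q.1.2), q.2⟩ : (Σ _ : ℕ × ℕ, ℕ)))
          ?_ ?_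
        · rintro ⟨⟨a, b⟩, g⟩ hq
          simp only [mem_coe, Finset.mem_sigma, mem_filter, mem_product,
            mem_sqSet, primesTo, mem_range] at hq
          obtain ⟨⟨⟨⟨ha1, ha2, ha3, ha4⟩, hb1, hb2, hb3, hb4⟩, hσ⟩, ⟨hg1, hg2⟩, hga, hgb⟩ := hq
          have ca : Nat.Coprime g a := (Nat.Prime.coprime_iff_not_dvd hg2).2 hga
          have cb : Nat.Coprime g b := (Nat.Prime.coprime_iff_not_dvd hg2).2 hgb
          have hgm : g ≤ m := by omega
          have la : g * a < x := lt_of_le_of_lt (by nlinarith) ha4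
          have lb : g * b < x := lt_of_le_of_lt (by nlinarith) hb4
          simp only [mem_coe, Finset.mem_sigma, mem_filter, mem_product,
            mem_sqSet, Nat.mem_primeFactors]
          have hgpos := hg2.pos
          refine ⟨⟨⟨⟨Nat.mul_pos hgpos ha1, la, ?_, by simpa using la⟩,
            Nat.mul_pos hgpos hb1, lb, ?_, by simpa using lb⟩, ?_⟩, hg2, dvd_mul_right _ _, ?_⟩
          · exact (Nat.squarefree_mul ca).2 ⟨hg2.squarefree, ha3⟩
          · exact (Nat.squarefree_mul cb).2 ⟨hg2.squarefree, hb3⟩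
          · rw [sigma_mul ca, sigma_mul cb, hσ]
          · have := Nat.mul_pos hgpos ha1
            omega
        · rintro ⟨⟨a, b⟩, g⟩ hq ⟨⟨a', b'⟩, g'⟩ hq' h
          simp only [mem_coe, Finset.mem_sigma, mem_filter, mem_product,
            mem_sqSet, primesTo, mem_range] at hq hq'
          have hg := hq.2.1.2.pos
          simp only [Sigma.mk.injEq, Prod.mk.injEq, heq_eq_eq] at h
          obtain ⟨⟨h1, h2⟩, rfl⟩ := h
          have e1 := Nat.eq_of_mul_eq_mul_left hg h1
          have e2 := Nat.eq_of_mul_eq_mul_left hg h2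
          subst e1 e2
          rfl
    _ = ∑ p ∈ {p ∈ sqSet x 1 ×ˢ sqSet x 1 | σ 1 p.1 = σ 1 p.2}, #(p.1.primeFactors) := card_sigma _ _
    _ ≤ ∑ p ∈ {p ∈ sqSet x 1 ×ˢ sqSet x 1 | σ 1 p.1 = σ 1 p.2}, Nat.log 2 x := by
        refine sum_le_sum fun p hp => ?_
        simp only [mem_filter, mem_product, mem_sqSet] at hp
        exact card_primeFactors_le (by omega) (by omega)
    _ = Nat.log 2 x * energy (sqSet x 1) (σ 1) := by
        rw [sum_const, smul_eq_mul, mul_comm]; rfl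

lemma scale (x m : ℕ) (hm : 1 ≤ m) :
    Nat.primeCounting m * energy (sqSet x m) (σ 1) ≤
      4 * Nat.log 2 x * energy (sqSet x 1) (σ 1) := by
  classical
  have hmono : energy (sqSet x m) (σ 1) ≤ energy (sqSet x 1) (σ 1) := by
    refine energy_mono ?_ _
    intro s hs
    rw [mem_sqSet] at hs ⊢
    exact ⟨hs.1, hs.2.1, hs.2.2.1, by omega⟩
  by_cases h : Nat.primeCounting m ≤ 4 * Nat.log 2 x
  · exact Nat.mul_le_mul h hmono
  push Not at h
  have h1 := scale_key x m hm
  have h2 : energy (sqSet x m) (σ 1) * (Nat.primeCounting m - 2 * Nat.log 2 x) ≤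
      ∑ p ∈ {p ∈ sqSet x m ×ˢ sqSet x m | σ 1 p.1 = σ 1 p.2},
      #{g ∈ primesTo m | ¬ g ∣ p.1 ∧ ¬ g ∣ p.2} := by
    have : energy (sqSet x m) (σ 1) * (Nat.primeCounting m - 2 * Nat.log 2 x) =
      ∑ p ∈ {p ∈ sqSet x m ×ˢ sqSet x m | σ 1 p.1 = σ 1 p.2},
        (Nat.primeCounting m - 2 * Nat.log 2 x) := by
      rw [sum_const, smul_eq_mul]; rfl
    rw [this]
    refine sum_le_sum fun p hp => ?_
    simp only [mem_filter, mem_product, mem_sqSet] at hp
    have w1 : #p.1.primeFactors ≤ Nat.log 2 x := card_primeFactors_le (by omega) (by omega)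
    have w2 : #p.2.primeFactors ≤ Nat.log 2 x := card_primeFactors_le (by omega) (by omega)
    have hsub : primesTo m ⊆ {g ∈ primesTo m | ¬ g ∣ p.1 ∧ ¬ g ∣ p.2} ∪
        (p.1.primeFactors ∪ p.2.primeFactors) := by
      intro g hg
      simp only [mem_union, mem_filter, Nat.mem_primeFactors]
      have hgp : g.Prime := by
        simp only [primesTo, mem_filter] at hg; exact hg.2
      by_cases d1 : g ∣ p.1
      · right; left; exact ⟨hgp, d1, by omega⟩
      · by_cases d2 : g ∣ p.2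
        · right; right; exact ⟨hgp, d2, by omega⟩
        · left; exact ⟨hg, d1, d2⟩
    have := (card_le_card hsub).trans ((card_union_le _ _).trans
      (Nat.add_le_add_left (card_union_le _ _) _))
    rw [card_primesTo] at this
    omega
  have h3 : Nat.primeCounting m ≤ 2 * (Nat.primeCounting m - 2 * Nat.log 2 x) := by omega
  calc Nat.primeCounting m * energy (sqSet x m) (σ 1)
      ≤ 2 * (Nat.primeCounting m - 2 * Nat.log 2 x) * energy (sqSet x m) (σ 1) :=
        Nat.mul_le_mul_right _ h3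
    _ = 2 * (energy (sqSet x m) (σ 1) * (Nat.primeCounting m - 2 * Nat.log 2 x)) := by ring
    _ ≤ 2 * (Nat.log 2 x * energy (sqSet x 1) (σ 1)) := Nat.mul_le_mul_left _ (h2.trans h1)
    _ ≤ 4 * Nat.log 2 x * energy (sqSet x 1) (σ 1) := by nlinarith

lemma le_primeCounting_mul_log {m : ℕ} (hm : 2 ≤ m) :
    (m : ℝ) ≤ 5 * Nat.primeCounting m * Real.log m := by
  have h := Chebyshev.pi_ge m
  have hm' : (2 : ℝ) ≤ m := by exact_mod_cast hm
  have hlog : 0 < Real.log m := Real.log_pos (by linarith)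
  rw [div_le_iff₀ hlog] at h
  have h2 : Real.log (m + 1) ≤ 2 * Real.log m := by
    rw [← Real.log_rpow (by linarith) 2]
    apply Real.log_le_log (by linarith)
    norm_num
    nlinarith
  have hpi : (1 : ℝ) ≤ Nat.primeCounting m := by
    have : 1 ≤ Nat.primeCounting m := by
      have := Nat.monotone_primeCounting hm
      have h22 : Nat.primeCounting 2 = 1 := by decide
      omega
    exact_mod_cast this
  have h3 : 2 * Real.log m ≤ 2 * (Nat.primeCounting m * Real.log m) := by nlinarith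
  have hl2 : (0.6931471803 : ℝ) < Real.log 2 := Real.log_two_gt_d9
  nlinarith

lemma energy_sqSet_le (x m : ℕ) (hx : 3 ≤ x) (hm : 1 ≤ m) (hmx : m < x) :
    (m : ℝ) * energy (sqSet x m) (σ 1) ≤
      20 * Nat.log 2 x * Real.log x * energy (sqSet x 1) (σ 1) := by
  have hlogx : 1 ≤ Real.log x := by
    have : Real.exp 1 < 3 := Real.exp_one_lt_three
    rw [Real.le_log_iff_exp_le (by positivity)]
    have : (3 : ℝ) ≤ x := by exact_mod_cast hx
    linarith
  have hL : (1 : ℝ) ≤ Nat.log 2 x := by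
    have : 1 ≤ Nat.log 2 x := Nat.le_log_of_pow_le (by norm_num) (by omega)
    exact_mod_cast this
  rcases Nat.lt_or_ge m 2 with h | h
  · obtain rfl : m = 1 := by omega
    have : (1 : ℝ) ≤ 20 * Nat.log 2 x * Real.log x := by nlinarith
    have h0 : (0 : ℝ) ≤ energy (sqSet x 1) (σ 1) := by positivity
    simp only [Nat.cast_one, one_mul]
    nlinarith
  have h1 := le_primeCounting_mul_log h
  have h2 : ((Nat.primeCounting m * energy (sqSet x m) (σ 1) : ℕ) : ℝ) ≤
      ((4 * Nat.log 2 x * energy (sqSet x 1) (σ 1) : ℕ) : ℝ) := by exact_mod_cast scale x m hm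
  push_cast at h2
  have hml : Real.log m ≤ Real.log x := Real.log_le_log (by positivity) (by exact_mod_cast hmx.le)
  have hml0 : 0 ≤ Real.log m := Real.log_natCast_nonneg m
  have hE : (0 : ℝ) ≤ energy (sqSet x m) (σ 1) := by positivity
  calc (m : ℝ) * energy (sqSet x m) (σ 1)
      ≤ (5 * Nat.primeCounting m * Real.log m) * energy (sqSet x m) (σ 1) := by gcongr
    _ = 5 * Real.log m * (Nat.primeCounting m * energy (sqSet x m) (σ 1)) := by ring
    _ ≤ 5 * Real.log m * (4 * Nat.log 2 x * energy (sqSet x 1) (σ 1)) := by gcongr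
    _ ≤ 5 * Real.log x * (4 * Nat.log 2 x * energy (sqSet x 1) (σ 1)) := by gcongr
    _ = 20 * Nat.log 2 x * Real.log x * energy (sqSet x 1) (σ 1) := by ring

end Pool.Agent.Helper1
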