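import Mathlib
import Pool.Agent.Helper1.SigmaScale

set_option autoImplicit false

open Finset
open scoped ArithmeticFunction.sigma

namespace Pool.Agent.Helper1

lemma one_le_log {x : ℕ} (hx : 3 ≤ x) : 1 ≤ Real.log x := by
  have : Real.exp 1 < 3 := Real.exp_one_lt_three
  rw [Real.le_log_iff_exp_le (by positivity)]
  have : (3 : ℝ) ≤ x := by exact_mod_cast hx
  linarith

lemma natLog_le {x : ℕ} (hx : 3 ≤ x) : (Nat.log 2 x : ℝ) ≤ 2 * Real.log x := by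
  have h : (2 : ℕ) ^ Nat.log 2 x ≤ x := Nat.pow_log_le_self 2 (by omega)
  have h' : ((2 : ℝ)) ^ Nat.log 2 x ≤ x := by exact_mod_cast h
  have h2 := Real.log_le_log (by positivity) h'
  rw [Real.log_pow] at h2
  have hl2 : (0.6931471803 : ℝ) < Real.log 2 := Real.log_two_gt_d9
  have : (0 : ℝ) ≤ Nat.log 2 x := by positivity
  nlinarith

/-- the sum of `1 / sqrt m` over the moduli `m = a^3 c^2` -/
lemma weight_sum : ∃ C : ℝ, 0 < C ∧ ∀ x : ℕ, 3 ≤ x →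
    ∑ i ∈ Ico 1 x ×ˢ Ico 1 x, 1 / Real.sqrt ((i.1 ^ 3 * i.2 ^ 2 : ℕ) : ℝ) ≤ C * Real.log x := by
  have hs : Summable fun n : ℕ => 1 / (n : ℝ) ^ (3 / 2 : ℝ) :=
    Real.summable_one_div_nat_rpow.2 (by norm_num)
  refine ⟨2 * (∑' n : ℕ, 1 / (n : ℝ) ^ (3 / 2 : ℝ) + 1), ?_, fun x hx => ?_⟩
  · have : 0 ≤ ∑' n : ℕ, 1 / (n : ℝ) ^ (3 / 2 : ℝ) := tsum_nonneg fun n => by positivity
    positivity
  have h1 : ∀ i ∈ Ico 1 x ×ˢ Ico 1 x, 1 / Real.sqrt ((i.1 ^ 3 * i.2 ^ 2 : ℕ) : ℝ) =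
      (1 / (i.1 : ℝ) ^ (3 / 2 : ℝ)) * (1 / (i.2 : ℝ)) := by
    intro i _
    push_cast
    rw [Real.sqrt_mul (by positivity), Real.sqrt_sq (by positivity), Real.sqrt_eq_rpow,
      ← Real.rpow_natCast, ← Real.rpow_mul (by positivity)]
    norm_num
    ring
  rw [sum_congr rfl h1, sum_product]
  simp only [← mul_sum]
  rw [← sum_mul]
  have h2 : ∑ n ∈ Ico 1 x, 1 / (n : ℝ) ^ (3 / 2 : ℝ) ≤ ∑' n : ℕ, 1 / (n : ℝ) ^ (3 / 2 : ℝ) :=
    hs.sum_le_tsum _ fun n _ => by positivity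
  have h3 : ∑ n ∈ Ico 1 x, 1 / (n : ℝ) ≤ 2 * Real.log x := by
    have e := harmonic_le_one_add_log x
    have e2 : ∑ n ∈ Ico 1 x, 1 / (n : ℝ) ≤ (harmonic x : ℝ) := by
      rw [harmonic_eq_sum_Icc]
      push_cast
      simp only [one_div]
      exact sum_le_sum_of_subset_of_nonneg
        (fun n hn => by simp only [mem_Ico, mem_Icc] at hn ⊢; omega)
        (fun n _ _ => by positivity)
    have := one_le_log hx
    linarith
  have h0 : 0 ≤ ∑ n ∈ Ico 1 x, 1 / (n : ℝ) := sum_nonneg fun n _ => by positivity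
  have h00 : 0 ≤ ∑' n : ℕ, 1 / (n : ℝ) ^ (3 / 2 : ℝ) := tsum_nonneg fun n => by positivity
  have h4 := one_le_log hx
  calc (∑ n ∈ Ico 1 x, 1 / (n : ℝ) ^ (3 / 2 : ℝ)) * ∑ n ∈ Ico 1 x, 1 / (n : ℝ)
      ≤ (∑' n : ℕ, 1 / (n : ℝ) ^ (3 / 2 : ℝ)) * (2 * Real.log x) := by gcongr
    _ ≤ 2 * (∑' n : ℕ, 1 / (n : ℝ) ^ (3 / 2 : ℝ) + 1) * Real.log x := by nlinarith

/-- all collisions versus squarefree collisions -/
theorem energy_compare : ∃ C : ℝ, 0 < C ∧ ∀ x : ℕ, 3 ≤ x →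
    (energy (Ico 1 x) (σ 1) : ℝ) ≤ C * Real.log x ^ 4 * energy (sqSet x 1) (σ 1) := by
  classical
  obtain ⟨C, hC, hw⟩ := weight_sum
  refine ⟨40 * C ^ 2, by positivity, fun x hx => ?_⟩
  set I : Finset (ℕ × ℕ) := {i ∈ Ico 1 x ×ˢ Ico 1 x | i.1 ^ 3 * i.2 ^ 2 < x} with hI
  have hIpos : ∀ i ∈ I, 1 ≤ i.1 ^ 3 * i.2 ^ 2 := by
    intro i hi
    simp only [hI, mem_filter, mem_product, mem_Ico] at hi
    exact Nat.mul_pos (pow_pos (by omega) 3) (pow_pos (by omega) 2)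
  have hcov : ∀ t ∈ Ico 1 x, ∃ i ∈ I, t ∈ partSet x (i.1 ^ 3 * i.2 ^ 2) := by
    intro t ht
    have ht' := mem_Ico.1 ht
    obtain ⟨a, c, s, h1, h2, h3⟩ := exists_decomp t (by omega)
    have ht0 : 0 < a ^ 3 * c ^ 2 * s := by omega
    have ha : 0 < a := by
      rcases Nat.eq_zero_or_pos a with rfl | h
      · simp at ht0
      · exact h
    have hc : 0 < c := by
      rcases Nat.eq_zero_or_pos c with rfl | h
      · simp at ht0
      · exact h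
    have hs : 0 < s := by
      rcases Nat.eq_zero_or_pos s with rfl | h
      · simp at ht0
      · exact h
    have hlt : a ^ 3 * c ^ 2 < x := by
      have : a ^ 3 * c ^ 2 * 1 ≤ a ^ 3 * c ^ 2 * s := Nat.mul_le_mul_left _ hs
      omega
    have ha3 : a ≤ a ^ 3 := Nat.le_self_pow (by norm_num) a
    have hc2 : c ≤ c ^ 2 := Nat.le_self_pow (by norm_num) c
    have hax : a < x := by nlinarith [pow_pos hc 2]
    have hcx : c < x := by nlinarith [pow_pos ha 3]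
    refine ⟨(a, c), ?_, ?_⟩
    · simp only [hI, mem_filter, mem_product, mem_Ico]
      exact ⟨⟨⟨ha, hax⟩, hc, hcx⟩, hlt⟩
    · simp only [partSet, mem_filter]
      exact ⟨ht, s, h1, h2, h3⟩
  have hlam : ∀ i ∈ I, 0 < 1 / Real.sqrt ((i.1 ^ 3 * i.2 ^ 2 : ℕ) : ℝ) := by
    intro i hi
    have : (0 : ℝ) < ((i.1 ^ 3 * i.2 ^ 2 : ℕ) : ℝ) := by exact_mod_cast hIpos i hi
    positivity
  have h1 := energy_le_weighted I (Ico 1 x) (σ 1) (fun i => partSet x (i.1 ^ 3 * i.2 ^ 2))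
    (fun i => 1 / Real.sqrt ((i.1 ^ 3 * i.2 ^ 2 : ℕ) : ℝ)) hlam hcov
  have hsum : ∑ i ∈ I, 1 / Real.sqrt ((i.1 ^ 3 * i.2 ^ 2 : ℕ) : ℝ) ≤ C * Real.log x := by
    refine le_trans ?_ (hw x hx)
    exact sum_le_sum_of_subset_of_nonneg (filter_subset _ _) fun i _ _ => by positivity
  set K : ℝ := 20 * Nat.log 2 x * Real.log x with hK
  have hlog := one_le_log hx
  have hK0 : 0 ≤ K := by positivity
  have hKle : K ≤ 40 * Real.log x ^ 2 := by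
    have := natLog_le hx
    rw [hK]; nlinarith
  have hE0 : (0 : ℝ) ≤ energy (sqSet x 1) (σ 1) := by positivity
  have h2 : ∀ i ∈ I, (energy (partSet x (i.1 ^ 3 * i.2 ^ 2)) (σ 1) : ℝ) /
      (1 / Real.sqrt ((i.1 ^ 3 * i.2 ^ 2 : ℕ) : ℝ)) ≤
      K * energy (sqSet x 1) (σ 1) * (1 / Real.sqrt ((i.1 ^ 3 * i.2 ^ 2 : ℕ) : ℝ)) := by
    intro i hi
    have hm1 := hIpos i hi
    have hmx : i.1 ^ 3 * i.2 ^ 2 < x := by
      simp only [hI, mem_filter] at hi; exact hi.2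
    set m : ℕ := i.1 ^ 3 * i.2 ^ 2 with hm
    have e1 : (energy (partSet x m) (σ 1) : ℝ) ≤ energy (sqSet x m) (σ 1) := by
      exact_mod_cast energy_partSet_le x m
    have e2 := energy_sqSet_le x m hx hm1 hmx
    have hmpos : (0 : ℝ) < (m : ℝ) := by exact_mod_cast hm1
    have hs : 0 < Real.sqrt (m : ℝ) := Real.sqrt_pos.2 hmpos
    have hss : Real.sqrt (m : ℝ) * Real.sqrt (m : ℝ) = m := Real.mul_self_sqrt hmpos.le
    rw [div_div_eq_mul_div, div_one, mul_one_div, le_div_iff₀ hs]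
    calc (energy (partSet x m) (σ 1) : ℝ) * Real.sqrt m * Real.sqrt m
        = m * energy (partSet x m) (σ 1) := by rw [mul_assoc, hss, mul_comm]
      _ ≤ m * energy (sqSet x m) (σ 1) := by gcongr
      _ ≤ K * energy (sqSet x 1) (σ 1) := e2
  have h3 : ∑ i ∈ I, (energy (partSet x (i.1 ^ 3 * i.2 ^ 2)) (σ 1) : ℝ) /
      (1 / Real.sqrt ((i.1 ^ 3 * i.2 ^ 2 : ℕ) : ℝ)) ≤
      K * energy (sqSet x 1) (σ 1) * (C * Real.log x) := by
    refine (sum_le_sum h2).trans ?_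
    rw [← mul_sum]
    gcongr
  have hs0 : 0 ≤ ∑ i ∈ I, 1 / Real.sqrt ((i.1 ^ 3 * i.2 ^ 2 : ℕ) : ℝ) :=
    sum_nonneg fun i _ => by positivity
  calc (energy (Ico 1 x) (σ 1) : ℝ)
      ≤ (∑ i ∈ I, 1 / Real.sqrt ((i.1 ^ 3 * i.2 ^ 2 : ℕ) : ℝ)) *
        ∑ i ∈ I, (energy (partSet x (i.1 ^ 3 * i.2 ^ 2)) (σ 1) : ℝ) /
          (1 / Real.sqrt ((i.1 ^ 3 * i.2 ^ 2 : ℕ) : ℝ)) := h1
    _ ≤ (∑ i ∈ I, 1 / Real.sqrt ((i.1 ^ 3 * i.2 ^ 2 : ℕ) : ℝ)) *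
        (K * energy (sqSet x 1) (σ 1) * (C * Real.log x)) := by gcongr
    _ ≤ (C * Real.log x) * (K * energy (sqSet x 1) (σ 1) * (C * Real.log x)) := by gcongr
    _ = K * (C ^ 2 * Real.log x ^ 2 * energy (sqSet x 1) (σ 1)) := by ring
    _ ≤ (40 * Real.log x ^ 2) * (C ^ 2 * Real.log x ^ 2 * energy (sqSet x 1) (σ 1)) := by gcongr
    _ = 40 * C ^ 2 * Real.log x ^ 4 * energy (sqSet x 1) (σ 1) := by ring

end Pool.Agent.Helper1
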