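import Mathlib

set_option autoImplicit false

open scoped ArithmeticFunction.sigma

namespace Pool.Agent.Helper1

/-- The number of pairs `1 ≤ a < b < x` with `σ(a) = σ(b)`. -/
def hAll (x : ℕ) : ℕ :=
  ((Finset.Ico 1 x ×ˢ Finset.Ico 1 x).filter fun (a, b) ↦
    a < b ∧ σ 1 a = σ 1 b).card

/-- The number of pairs `1 ≤ a < b < x` with `gcd(a, b) = 1` and `σ(a) = σ(b)`. -/
def hCoprime (x : ℕ) : ℕ :=
  ((Finset.Ico 1 x ×ˢ Finset.Ico 1 x).filter fun (a, b) ↦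
    a < b ∧ Nat.Coprime a b ∧ σ 1 a = σ 1 b).card

end Pool.Agent.Helper1
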