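import Mathlib
import Pool.Prelude.Def_F_aebf185a
import Pool.Agent.Helper1.SigmaCompare
import Pool.Agent.Helper1.SigmaDefs

set_option autoImplicit false

open Finset Nb4cc4d7a
open scoped ArithmeticFunction.sigma

namespace Pool.Agent.Helper1

lemma hAll_le_energy (x : ℕ) : hAll x ≤ energy (Ico 1 x) (σ 1) := by
  unfold hAll energy
  refine card_le_card fun p hp => ?_
  simp only [mem_filter] at hp ⊢
  exact ⟨hp.1, hp.2.2⟩

lemma hCoprime_le_hAll (x : ℕ) : hCoprime x ≤ hAll x := by
  unfold hAll hCoprime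
  refine card_le_card fun p hp => ?_
  simp only [mem_filter] at hp ⊢
  exact ⟨hp.1, hp.2.1, hp.2.2.2⟩

/-- the set counted by `hSquarefree` -/
def sqPairs (x : ℕ) : Finset (ℕ × ℕ) :=
  {p ∈ Ico 1 x ×ˢ Ico 1 x | p.1 < p.2 ∧ Squarefree p.1 ∧ Squarefree p.2 ∧ σ 1 p.1 = σ 1 p.2}

lemma card_sqPairs (x : ℕ) : #(sqPairs x) = hSquarefree x := rfl

lemma energy_sq_le (x : ℕ) : energy (sqSet x 1) (σ 1) ≤ 2 * hSquarefree x + x := by
  have hsub : ({p ∈ sqSet x 1 ×ˢ sqSet x 1 | σ 1 p.1 = σ 1 p.2} : Finset (ℕ × ℕ)) ⊆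
      sqPairs x ∪ ((sqPairs x).image Prod.swap ∪ (range x).image fun a => (a, a)) := by
    rintro ⟨a, b⟩ hp
    simp only [mem_filter, mem_product, mem_sqSet] at hp
    obtain ⟨⟨⟨ha1, ha2, ha3, _⟩, hb1, hb2, hb3, _⟩, hσ⟩ := hp
    simp only [mem_union, sqPairs, mem_filter, mem_product, mem_Ico, mem_image, mem_range,
      Prod.exists, Prod.swap_prod_mk, Prod.mk.injEq]
    rcases lt_trichotomy a b with h | h | h
    · left; exact ⟨⟨⟨ha1, ha2⟩, hb1, hb2⟩, h, ha3, hb3, hσ⟩
    · right; right; exact ⟨a, ha2, rfl, h⟩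
    · right; left; exact ⟨b, a, ⟨⟨⟨hb1, hb2⟩, ha1, ha2⟩, h, hb3, ha3, hσ.symm⟩, rfl, rfl⟩
  have h := (card_le_card hsub).trans ((card_union_le _ _).trans
    (Nat.add_le_add_left (card_union_le _ _) _))
  have h1 : #((sqPairs x).image Prod.swap) ≤ #(sqPairs x) := card_image_le
  have h2 : #((range x).image fun a => (a, a)) ≤ x := card_image_le.trans (by simp)
  rw [← card_sqPairs]
  unfold energy
  omega

lemma sigma_fourteen : σ 1 14 = σ 1 15 := by decide +kernel

lemma many_primes (x : ℕ) :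
    Nat.primeCounting ((x - 1) / 15) - 4 ≤ hSquarefree x := by
  classical
  have h4 : #(primesTo 7) = 4 := by decide +kernel
  rw [← card_primesTo, ← h4]
  refine (le_card_sdiff _ _).trans ?_
  unfold hSquarefree
  refine card_le_card_of_injOn (fun g => (14 * g, 15 * g)) ?_ ?_
  · intro g hg
    simp only [coe_sdiff, Set.mem_sdiff, mem_coe, primesTo, mem_filter, mem_range, not_and] at hg
    obtain ⟨⟨hg1, hg2⟩, hg3⟩ := hg
    have hg8 : 8 ≤ g := by
      by_contra hlt
      exact hg3 (by omega) hg2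
    have hlt : 15 * g < x := by
      have := Nat.div_mul_le_self (x - 1) 15
      have : g ≤ (x - 1) / 15 := by omega
      rcases Nat.eq_zero_or_pos x with rfl | hx
      · simp at this; omega
      · omega
    have c14 : Nat.Coprime 14 g := by
      refine Nat.Coprime.symm ((Nat.Prime.coprime_iff_not_dvd hg2).2 fun hd => ?_)
      have : g ∣ 2 * 7 := hd
      rcases (Nat.Prime.dvd_mul hg2).1 this with h | h
      · exact absurd (Nat.le_of_dvd (by norm_num) h) (by omega)
      · exact absurd (Nat.le_of_dvd (by norm_num) h) (by omega)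
    have c15 : Nat.Coprime 15 g := by
      refine Nat.Coprime.symm ((Nat.Prime.coprime_iff_not_dvd hg2).2 fun hd => ?_)
      have : g ∣ 3 * 5 := hd
      rcases (Nat.Prime.dvd_mul hg2).1 this with h | h
      · exact absurd (Nat.le_of_dvd (by norm_num) h) (by omega)
      · exact absurd (Nat.le_of_dvd (by norm_num) h) (by omega)
    have s14 : Squarefree (14 : ℕ) := by decide +kernel
    have s15 : Squarefree (15 : ℕ) := by decide +kernel
    simp only [coe_filter, mem_product, mem_Ico, Set.mem_ofPred_eq]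
    refine ⟨⟨⟨by omega, by omega⟩, by omega, by omega⟩, by omega, ?_, ?_, ?_⟩
    · exact (Nat.squarefree_mul c14).2 ⟨s14, hg2.squarefree⟩
    · exact (Nat.squarefree_mul c15).2 ⟨s15, hg2.squarefree⟩
    · rw [sigma_mul c14, sigma_mul c15, sigma_fourteen]
  · intro g _ g' _ h
    simp only [Prod.mk.injEq] at h
    omega

lemma one_le_hSquarefree {x : ℕ} (hx : 16 ≤ x) : 1 ≤ hSquarefree x := by
  unfold hSquarefree
  rw [Nat.one_le_iff_ne_zero, ← Nat.pos_iff_ne_zero, card_pos]
  refine ⟨(14, 15), ?_⟩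
  have s14 : Squarefree (14 : ℕ) := by decide +kernel
  have s15 : Squarefree (15 : ℕ) := by decide +kernel
  simp only [mem_filter, mem_product, mem_Ico]
  exact ⟨⟨⟨by omega, by omega⟩, by omega, by omega⟩, by omega, s14, s15, sigma_fourteen⟩

/-- a crude linear lower bound for the squarefree count -/
lemma le_mul_hSquarefree {x : ℕ} (hx : 16 ≤ x) :
    (x : ℝ) ≤ 450 * Real.log x * hSquarefree x := by
  have hlog := one_le_log (show 3 ≤ x by omega)
  have h1 : (1 : ℝ) ≤ hSquarefree x := by exact_mod_cast one_le_hSquarefree hx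
  rcases le_or_gt x 450 with hs | hs
  · have : (x : ℝ) ≤ 450 := by exact_mod_cast hs
    nlinarith
  set y := (x - 1) / 15 with hy
  have hy19 : 29 ≤ y := by omega
  have hxy : x ≤ 16 * y := by omega
  have hyx : y ≤ x := by omega
  have hpi : 10 ≤ Nat.primeCounting y := by
    have := Nat.monotone_primeCounting hy19
    have h22 : Nat.primeCounting 29 = 10 := by decide +kernel
    omega
  have hm : Nat.primeCounting y - 4 ≤ hSquarefree x := many_primes x
  have h2 : Nat.primeCounting y ≤ 2 * hSquarefree x := by omega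
  have h2' : (Nat.primeCounting y : ℝ) ≤ 2 * hSquarefree x := by exact_mod_cast h2
  have h3 := le_primeCounting_mul_log (show 2 ≤ y by omega)
  have h4 : Real.log y ≤ Real.log x :=
    Real.log_le_log (by have : 0 < y := by omega
                        exact_mod_cast this) (by exact_mod_cast hyx)
  have h5 : (x : ℝ) ≤ 16 * y := by exact_mod_cast hxy
  have h40 : 0 ≤ Real.log y := Real.log_natCast_nonneg y
  calc (x : ℝ) ≤ 16 * y := h5
    _ ≤ 16 * (5 * Nat.primeCounting y * Real.log y) := by gcongr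
    _ ≤ 16 * (5 * (2 * hSquarefree x) * Real.log x) := by gcongr
    _ ≤ 450 * Real.log x * hSquarefree x := by nlinarith

/-- the total count exceeds the squarefree count by at most a power of the logarithm -/
theorem hAll_le : ∃ C : ℝ, 0 < C ∧ ∀ x : ℕ, 16 ≤ x →
    (hAll x : ℝ) ≤ C * Real.log x ^ 5 * hSquarefree x := by
  obtain ⟨C, hC, h⟩ := energy_compare
  refine ⟨452 * C, by positivity, fun x hx => ?_⟩
  have hlog := one_le_log (show 3 ≤ x by omega)
  have h1 := h x (by omega)
  have h2 : (hAll x : ℝ) ≤ energy (Ico 1 x) (σ 1) := by exact_mod_cast hAll_le_energy x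
  have h3 : (energy (sqSet x 1) (σ 1) : ℝ) ≤ 2 * hSquarefree x + x := by
    exact_mod_cast energy_sq_le x
  have h4 := le_mul_hSquarefree hx
  have h5 : (energy (sqSet x 1) (σ 1) : ℝ) ≤ 452 * Real.log x * hSquarefree x := by
    have : (0 : ℝ) ≤ hSquarefree x := by positivity
    nlinarith
  calc (hAll x : ℝ) ≤ C * Real.log x ^ 4 * energy (sqSet x 1) (σ 1) := h2.trans h1
    _ ≤ C * Real.log x ^ 4 * (452 * Real.log x * hSquarefree x) := by gcongr
    _ = 452 * C * Real.log x ^ 5 * hSquarefree x := by ring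

end Pool.Agent.Helper1
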