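import Mathlib
import Pool.Prelude.Def_F_aebf185a
import Pool.Agent.Helper1.SigmaPairs

set_option autoImplicit false

open Finset Filter Nb4cc4d7a Pool.Agent.Helper1
open scoped ArithmeticFunction.sigma

namespace Pool.Agent.Helper1.SigmaCoprime

/-- coprime pairs scaled by `g` -/
def copPairs (x g : ℕ) : Finset (ℕ × ℕ) :=
  {p ∈ Ico 1 x ×ˢ Ico 1 x | p.1 < p.2 ∧ Nat.Coprime p.1 p.2 ∧ σ 1 p.1 = σ 1 p.2 ∧ p.2 * g < x}

lemma sq_le_sum (x : ℕ) : hSquarefree x ≤ ∑ g ∈ Ico 1 x, #(copPairs x g) := by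
  rw [← card_sqPairs, ← card_sigma]
  refine card_le_card_of_injOn
    (fun p => (⟨Nat.gcd p.1 p.2, (p.1 / Nat.gcd p.1 p.2, p.2 / Nat.gcd p.1 p.2)⟩ :
      (Σ _ : ℕ, ℕ × ℕ))) ?_ ?_
  · rintro ⟨A, B⟩ hp
    simp only [mem_coe, sqPairs, mem_filter, mem_product, mem_Ico] at hp
    obtain ⟨⟨⟨hA1, hA2⟩, hB1, hB2⟩, hAB, hsA, hsB, hσ⟩ := hp
    have hg : 0 < Nat.gcd A B := Nat.gcd_pos_of_pos_left _ hA1
    obtain ⟨g, a, b, hg0, hab, hA, hB⟩ := Nat.exists_coprime' hg
    have hgcd : Nat.gcd A B = g := by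
      rw [hA, hB, Nat.gcd_mul_right, hab.gcd_eq_one, one_mul]
    subst hA hB
    simp only [hgcd, Nat.mul_div_cancel _ hg0]
    simp only [mem_coe, Finset.mem_sigma, copPairs, mem_filter, mem_product, mem_Ico]
    have ca : Nat.Coprime a g := Nat.coprime_of_squarefree_mul hsA
    have cb : Nat.Coprime b g := Nat.coprime_of_squarefree_mul hsB
    rw [sigma_mul ca, sigma_mul cb] at hσ
    have hσg := sigma_pos hg0.ne'
    have ha0 : 0 < a := Nat.pos_of_mul_pos_right hA1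
    have hb0 : 0 < b := Nat.pos_of_mul_pos_right hB1
    have hlt : a < b := lt_of_mul_lt_mul_right hAB (Nat.zero_le _)
    refine ⟨⟨hg0, by nlinarith⟩, ⟨⟨ha0, by nlinarith⟩, hb0, by nlinarith⟩, hlt, hab,
      Nat.eq_of_mul_eq_mul_right hσg hσ, hB2⟩
  · rintro ⟨A, B⟩ hp ⟨A', B'⟩ hp' h
    simp only [Sigma.mk.injEq, heq_eq_eq, Prod.mk.injEq] at h
    obtain ⟨h1, h2, h3⟩ := h
    have e1 := Nat.div_mul_cancel (Nat.gcd_dvd_left A B)
    have e2 := Nat.div_mul_cancel (Nat.gcd_dvd_right A B)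
    have e3 := Nat.div_mul_cancel (Nat.gcd_dvd_left A' B')
    have e4 := Nat.div_mul_cancel (Nat.gcd_dvd_right A' B')
    rw [h2, h1] at e1
    rw [h3, h1] at e2
    rw [Prod.mk.injEq]
    exact ⟨e1.symm.trans e3, e2.symm.trans e4⟩

lemma copPairs_le (x g : ℕ) : #(copPairs x g) ≤ hCoprime x := by
  unfold hCoprime
  refine card_le_card fun p hp => ?_
  simp only [copPairs, mem_filter] at hp ⊢
  exact ⟨hp.1, hp.2.1, hp.2.2.1, hp.2.2.2.1⟩

lemma copPairs_le' (x g : ℕ) (hg : 1 ≤ g) :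
    (#(copPairs x g) : ℝ) ≤ (x : ℝ) ^ 2 * ((g : ℝ) ^ 2)⁻¹ := by
  have h1 : #(copPairs x g) ≤ (x / g) * (x / g) := by
    have : copPairs x g ⊆ Icc 1 (x / g) ×ˢ Icc 1 (x / g) := by
      rintro ⟨a, b⟩ hp
      simp only [copPairs, mem_filter, mem_product, mem_Ico] at hp
      have hb : b ≤ x / g := (Nat.le_div_iff_mul_le hg).2 (by omega)
      simp only [mem_product, mem_Icc]
      omega
    refine (card_le_card this).trans ?_
    simp
  have h2 : ((x / g : ℕ) : ℝ) ≤ (x : ℝ) / g := Nat.cast_div_le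
  calc (#(copPairs x g) : ℝ) ≤ ((x / g : ℕ) : ℝ) * ((x / g : ℕ) : ℝ) := by exact_mod_cast h1
    _ ≤ ((x : ℝ) / g) * ((x : ℝ) / g) := by gcongr
    _ = (x : ℝ) ^ 2 * ((g : ℝ) ^ 2)⁻¹ := by ring

lemma sq_le (x G : ℕ) (hG : 1 ≤ G) :
    (hSquarefree x : ℝ) ≤ G * hCoprime x + 2 * (x : ℝ) ^ 2 / G := by
  have h1 : (hSquarefree x : ℝ) ≤ ∑ g ∈ Ico 1 x, (#(copPairs x g) : ℝ) := by
    exact_mod_cast sq_le_sum x
  have h2 : ∑ g ∈ Ico 1 x, (#(copPairs x g) : ℝ) ≤
      ∑ g ∈ range G, (hCoprime x : ℝ) + ∑ g ∈ Ioo (G - 1) x, (x : ℝ) ^ 2 * ((g : ℝ) ^ 2)⁻¹ := by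
    have hsub : Ico 1 x ⊆ (Ico 1 x ∩ range G) ∪ (Ico 1 x ∩ Ioo (G - 1) x) := by
      intro g hg
      simp only [mem_union, mem_inter, mem_range, mem_Ioo, mem_Ico] at hg ⊢
      omega
    refine (sum_le_sum_of_subset_of_nonneg hsub (fun _ _ _ => by positivity)).trans ?_
    rw [sum_union]
    · refine add_le_add ?_ ?_
      · refine (sum_le_sum_of_subset_of_nonneg inter_subset_right
          (fun _ _ _ => by positivity)).trans ?_
        exact sum_le_sum fun g _ => by exact_mod_cast copPairs_le x g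
      · refine (sum_le_sum_of_subset_of_nonneg inter_subset_right
          (fun _ _ _ => by positivity)).trans ?_
        refine sum_le_sum fun g hg => copPairs_le' x g ?_
        simp only [mem_Ioo] at hg
        omega
    · rw [disjoint_left]
      intro g hg
      simp only [mem_inter, mem_range, mem_Ioo, mem_Ico] at hg ⊢
      omega
  have h3 : ∑ g ∈ Ioo (G - 1) x, (x : ℝ) ^ 2 * ((g : ℝ) ^ 2)⁻¹ ≤ 2 * (x : ℝ) ^ 2 / G := by
    rw [← mul_sum]
    have := sum_Ioo_inv_sq_le (α := ℝ) (G - 1) x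
    have e : (((G - 1 : ℕ) : ℝ) + 1) = G := by
      have : (G - 1) + 1 = G := by omega
      exact_mod_cast this
    rw [e] at this
    calc (x : ℝ) ^ 2 * ∑ i ∈ Ioo (G - 1) x, ((i : ℝ) ^ 2)⁻¹ ≤ (x : ℝ) ^ 2 * (2 / G) := by gcongr
      _ = 2 * (x : ℝ) ^ 2 / G := by ring
  rw [sum_const, card_range, nsmul_eq_mul] at h2
  linarith

/-- The quadratic-growth conjecture for coprime pairs `a < b < x` with `σ(a) = σ(b)` is equivalent
to the one for squarefree pairs. -/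
theorem main :
    (∀ ε : ℝ, 0 < ε → ∀ᶠ x : ℕ in atTop, (x : ℝ) ^ (2 - ε) < (hCoprime x : ℝ)) ↔
    (∀ ε : ℝ, 0 < ε → ∀ᶠ x : ℕ in atTop, (x : ℝ) ^ (2 - ε) < (hSquarefree x : ℝ)) := by
  constructor
  · intro h ε hε
    obtain ⟨C, hC, hAll⟩ := hAll_le
    have hlog : ∀ᶠ x : ℕ in atTop, C * Real.log x ^ 5 ≤ (x : ℝ) ^ (ε / 2) := by
      have h1 : (fun x : ℝ => Real.log x ^ 5) =o[atTop] fun x : ℝ => x ^ (ε / 2) := by
        have := isLittleO_log_rpow_rpow_atTop 5 (half_pos hε)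
        simpa using this
      have h2 := (h1.comp_tendsto tendsto_natCast_atTop_atTop).bound
        (show (0 : ℝ) < 1 / C by positivity)
      filter_upwards [h2, eventually_ge_atTop 3] with x hx hx3
      simp only [Function.comp_apply, Real.norm_eq_abs] at hx
      have hlogx := one_le_log hx3
      rw [abs_of_nonneg (by positivity), abs_of_nonneg (by positivity)] at hx
      calc C * Real.log x ^ 5 ≤ C * (1 / C * (x : ℝ) ^ (ε / 2)) := by gcongr
        _ = (x : ℝ) ^ (ε / 2) := by field_simp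
    filter_upwards [h (ε / 2) (half_pos hε), hlog, eventually_ge_atTop 16] with x h1 h2 h3
    have h4 := hAll x h3
    have h5 : (hCoprime x : ℝ) ≤ Pool.Agent.Helper1.hAll x := by
      exact_mod_cast hCoprime_le_hAll x
    have hx0 : (0 : ℝ) < x := by positivity
    have h6 : (x : ℝ) ^ (2 - ε / 2) < (x : ℝ) ^ (ε / 2) * hSquarefree x := by
      calc (x : ℝ) ^ (2 - ε / 2) < hCoprime x := h1
        _ ≤ C * Real.log x ^ 5 * hSquarefree x := h5.trans h4
        _ ≤ (x : ℝ) ^ (ε / 2) * hSquarefree x := by gcongr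
    have h7 : (x : ℝ) ^ (2 - ε / 2) = (x : ℝ) ^ (ε / 2) * (x : ℝ) ^ (2 - ε) := by
      rw [← Real.rpow_add hx0]; congr 1; ring
    rw [h7] at h6
    exact lt_of_mul_lt_mul_left h6 (by positivity)
  · intro h ε hε
    have hbig : ∀ᶠ x : ℕ in atTop, (10 : ℝ) < (x : ℝ) ^ (ε / 3) := by
      have := (tendsto_rpow_atTop (show (0 : ℝ) < ε / 3 by positivity)).comp
        (tendsto_natCast_atTop_atTop (R := ℝ))
      exact this.eventually_gt_atTop 10
    filter_upwards [h (ε / 3) (by positivity), hbig, eventually_ge_atTop 16] with x h1 h2 h3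
    have hx0 : (0 : ℝ) < x := by positivity
    set y : ℝ := (x : ℝ) ^ (ε / 3) with hy
    set G : ℕ := ⌈4 * y⌉₊ with hG
    have hGle : (G : ℝ) ≤ 5 * y := by
      have := Nat.ceil_lt_add_one (show 0 ≤ 4 * y by positivity)
      linarith
    have hGge : 4 * y ≤ G := Nat.le_ceil _
    have hG1 : 1 ≤ G := by
      have : (0 : ℝ) < G := by linarith
      exact_mod_cast this
    have hG0 : (0 : ℝ) < G := by linarith
    have h4 := sq_le x G hG1
    have e1 : (x : ℝ) ^ (2 - ε / 3) = (x : ℝ) ^ (2 - ε) * (y * y) := by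
      rw [hy, ← Real.rpow_add hx0, ← Real.rpow_add hx0]; congr 1; ring
    have e2 : (x : ℝ) ^ 2 = (x : ℝ) ^ (2 - ε) * (y * y * y) := by
      rw [hy, ← Real.rpow_add hx0, ← Real.rpow_add hx0, ← Real.rpow_add hx0,
        ← Real.rpow_natCast]; congr 1; push_cast; ring
    set w : ℝ := (x : ℝ) ^ (2 - ε) with hw
    have hw0 : 0 < w := by positivity
    have e3 : 2 * (x : ℝ) ^ 2 / G ≤ w * (y * y) / 2 := by
      rw [e2, div_le_iff₀ hG0]
      have : w * (y * y) * (4 * y) ≤ w * (y * y) * G := by gcongr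
      nlinarith
    rw [e1] at h1
    have h5 : w * (y * y) / 2 < G * hCoprime x := by linarith
    have h6 : w * (y * y) / 2 < 5 * y * hCoprime x := by
      refine h5.trans_le ?_
      gcongr
    have h7 : w * y < 10 * hCoprime x := by
      have hy0 : 0 < y := by linarith
      nlinarith
    nlinarith

end Pool.Agent.Helper1.SigmaCoprime
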