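import Mathlib
import Pool.Agent.Helper8.Defs

set_option autoImplicit false

open Finset Pool.Agent.Helper8

namespace Pool.Agent.Helper1.Stage

lemma log3_lt : Real.log 3 < 1.0987 := by
  have h : Real.log 3 = Real.log 2 + Real.log 1.5 := by
    rw [← Real.log_mul (by norm_num) (by norm_num)]; norm_num
  have h2 : Real.log 2 < 0.6931471808 := Real.log_two_lt_d9
  have h3 : Real.log 1.5 < 0.4055 := by
    rw [Real.log_lt_iff_lt_exp (by norm_num)]
    have := Real.sum_le_exp_of_nonneg (show (0:ℝ) ≤ 0.4055 by norm_num) 8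
    refine lt_of_lt_of_le ?_ this
    norm_num [Finset.sum_range_succ, Nat.factorial]
  linarith

lemma log2_lt : Real.log 2 < 0.6932 := by
  have h2 : Real.log 2 < 0.6931471808 := Real.log_two_lt_d9
  linarith

lemma log2_gt : 0.6931 < Real.log 2 := by
  have h2 : 0.6931471803 < Real.log 2 := Real.log_two_gt_d9
  linarith

lemma log3_pos : 0 < Real.log 3 := Real.log_pos (by norm_num)

lemma two_three_ne {k : ℕ} {j : ℕ} (hk : 0 < k) : (2 : ℝ) ^ k ≠ (3 : ℝ) ^ j := by
  intro h
  have h' : (2 : ℕ) ^ k = 3 ^ j := by exact_mod_cast h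
  have h2 : Even ((2 : ℕ) ^ k) := (even_two).pow_of_ne_zero hk.ne'
  have h3 : Odd ((3 : ℕ) ^ j) := Odd.pow (by decide)
  rw [h'] at h2
  exact (Nat.not_even_iff_odd.2 h3) h2

/-- choice of the exponents -/
lemma exists_exponents (F : ℕ) (hF : 2 ≤ F) : ∃ f1 f2 : ℤ,
    0 < (f1 : ℝ) * Real.log 2 + f2 * Real.log 3 ∧
    (f1 : ℝ) * Real.log 2 + f2 * Real.log 3 ≤ 2 / F ∧
    Real.log 2 ≤ |(f1 : ℝ)| * Real.log 2 + |(f2 : ℝ)| * Real.log 3 ∧
    |(f1 : ℝ)| * Real.log 2 + |(f2 : ℝ)| * Real.log 3 ≤ 2 * F := by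
  have hl3 := log3_pos
  have hl3' := log3_lt
  have hl2 := log2_lt
  have hl2' := log2_gt
  have hF' : (2 : ℝ) ≤ F := by exact_mod_cast hF
  obtain ⟨j, k, hk0, hkF, hjk⟩ :=
    Real.exists_int_int_abs_mul_sub_le (Real.log 2 / Real.log 3) (n := F) (by omega)
  have hk0' : (1 : ℝ) ≤ k := by exact_mod_cast hk0
  have hkF' : (k : ℝ) ≤ F := by exact_mod_cast hkF
  -- the linear form
  have hform : |(k : ℝ) * Real.log 2 - j * Real.log 3| ≤ 2 / F := by
    have e : (k : ℝ) * Real.log 2 - j * Real.log 3 =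
        (k * (Real.log 2 / Real.log 3) - j) * Real.log 3 := by field_simp
    rw [e, abs_mul, abs_of_pos hl3]
    calc |(k : ℝ) * (Real.log 2 / Real.log 3) - j| * Real.log 3
        ≤ 1 / ((F : ℝ) + 1) * Real.log 3 := by gcongr
      _ ≤ 1 / (F : ℝ) * 2 := by
          have h1 : 1 / ((F : ℝ) + 1) ≤ 1 / F := by
            apply one_div_le_one_div_of_le <;> linarith
          have : Real.log 3 ≤ 2 := by linarith
          have h0 : 0 < 1 / ((F : ℝ) + 1) := by positivity
          nlinarith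
      _ = 2 / F := by ring
  have hjabs : |(j : ℝ)| ≤ F := by
    have h1 := abs_le.1 hjk
    have hx : 0 < Real.log 2 / Real.log 3 := by positivity
    have hx1 : Real.log 2 / Real.log 3 ≤ 0.7 := by
      rw [div_le_iff₀ hl3]
      have : (1 : ℝ) ≤ Real.log 3 := by
        rw [Real.le_log_iff_exp_le (by norm_num)]
        exact Real.exp_one_lt_three.le
      linarith
    have h2 : 1 / ((F : ℝ) + 1) ≤ 1 / 3 := by
      apply one_div_le_one_div_of_le <;> linarith
    have hkx : (k : ℝ) * (Real.log 2 / Real.log 3) ≤ F * 0.7 := by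
      apply mul_le_mul hkF' hx1 hx.le (by linarith)
    have hkx0 : 0 ≤ (k : ℝ) * (Real.log 2 / Real.log 3) := by positivity
    rw [abs_le]
    constructor <;> nlinarith [h1.1, h1.2]
  have hne : (k : ℝ) * Real.log 2 - j * Real.log 3 ≠ 0 := by
    intro h0
    have hj : (0 : ℝ) < j := by
      by_contra hneg
      push Not at hneg
      have : (j : ℝ) * Real.log 3 ≤ 0 := mul_nonpos_of_nonpos_of_nonneg hneg hl3.le
      nlinarith
    have hj' : 0 < j := by exact_mod_cast hj
    obtain ⟨k', rfl⟩ := Int.eq_ofNat_of_zero_le hk0.le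
    obtain ⟨j', rfl⟩ := Int.eq_ofNat_of_zero_le hj'.le
    have e : Real.log ((2 : ℝ) ^ k') = Real.log ((3 : ℝ) ^ j') := by
      rw [Real.log_pow, Real.log_pow]
      push_cast at h0
      linarith
    have := Real.log_injOn_pos (Set.mem_Ioi.2 (by positivity)) (Set.mem_Ioi.2 (by positivity)) e
    exact two_three_ne (by exact_mod_cast hk0) this
  have hh : |(k : ℝ)| * Real.log 2 + |(j : ℝ)| * Real.log 3 ≤ 2 * F := by
    rw [abs_of_pos (by linarith : (0 : ℝ) < k)]
    have h1 : (k : ℝ) * Real.log 2 ≤ F * Real.log 2 := by gcongr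
    have h2 : |(j : ℝ)| * Real.log 3 ≤ F * Real.log 3 := by gcongr
    nlinarith
  have hh' : Real.log 2 ≤ |(k : ℝ)| * Real.log 2 + |(j : ℝ)| * Real.log 3 := by
    rw [abs_of_pos (by linarith : (0 : ℝ) < k)]
    have h2 : 0 ≤ |(j : ℝ)| * Real.log 3 := by positivity
    nlinarith
  rcases lt_or_gt_of_ne hne with hlt | hgt
  · refine ⟨-k, j, ?_, ?_, ?_, ?_⟩
    · push_cast; linarith
    · push_cast
      rw [abs_of_neg hlt] at hform
      linarith
    · push_cast; rw [abs_neg]; exact hh'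
    · push_cast; rw [abs_neg]; exact hh
  · refine ⟨k, -j, ?_, ?_, ?_, ?_⟩
    · push_cast; linarith
    · push_cast
      rw [abs_of_pos hgt] at hform
      linarith
    · push_cast; rw [abs_neg]; exact hh'
    · push_cast; rw [abs_neg]; exact hh

/-- separated sets in short intervals are small -/
lemma card_le_of_separated (T : Finset ℝ) (d l : ℝ) (hd : 0 < d) (hl : 0 ≤ l)
    (hsep : ∀ x ∈ T, ∀ y ∈ T, x ≠ y → d ≤ |x - y|)
    (hdiam : ∀ x ∈ T, ∀ y ∈ T, |x - y| ≤ l) : (T.card : ℝ) ≤ l / d + 1 := by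
  rcases T.eq_empty_or_nonempty with rfl | hne
  · simp; positivity
  set m := T.min' hne with hm
  have hmT : m ∈ T := T.min'_mem hne
  have hmap : ∀ x ∈ T, ⌊(x - m) / d⌋ ∈ Finset.Icc (0 : ℤ) ⌊l / d⌋ := by
    intro x hx
    rw [Finset.mem_Icc]
    have h1 : m ≤ x := T.min'_le x hx
    constructor
    · exact Int.floor_nonneg.2 (div_nonneg (by linarith) hd.le)
    · apply Int.floor_le_floor
      apply div_le_div_of_nonneg_right _ hd.le
      exact (le_abs_self _).trans (hdiam x hx m hmT)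
  have hinj : Set.InjOn (fun x : ℝ => ⌊(x - m) / d⌋) (T : Set ℝ) := by
    intro x hx y hy hxy
    by_contra hne'
    have h1 := hsep x hx y hy hne'
    have h2 := Int.abs_sub_lt_one_of_floor_eq_floor hxy
    rw [← sub_div, abs_div, abs_of_pos hd, div_lt_one hd] at h2
    have : x - m - (y - m) = x - y := by ring
    rw [this] at h2
    linarith
  have hcard := Finset.card_le_card_of_injOn _ hmap hinj
  rw [Int.card_Icc] at hcard
  have h0 : 0 ≤ ⌊l / d⌋ := Int.floor_nonneg.2 (by positivity)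
  have h3 : ((T.card : ℤ) : ℝ) ≤ ((⌊l / d⌋ + 1 : ℤ) : ℝ) := by
    have : (T.card : ℤ) ≤ ⌊l / d⌋ + 1 := by omega
    exact_mod_cast this
  push_cast at h3
  have h4 := Int.floor_le (l / d)
  linarith

/-- low scales -/
lemma low_count (w J : ℕ) (B r v : ℝ) (hw : 104 ≤ w) (hB : 16 ≤ B) (hr1 : 1 ≤ r) (hr2 : r ≤ 2)
    (hv : 1 < v) (hJl : J * Real.log v ≤ 1) (s : Finset ℕ)
    (hs : ∀ c ∈ s, c ≤ J ∧ IsBad w r v B c) :
    (s.card : ℝ) ≤ (4 * J * Real.log v * B ^ 4 + 2) * (2 * (1 / B ^ w) / Real.log v + 1) := by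
  classical
  set lam := Real.log v with hlam
  have hlam0 : 0 < lam := Real.log_pos hv
  have hv0 : 0 < v := by linarith
  have hBpos : 0 < B := by linarith
  have hpowexp : ∀ n : ℕ, v ^ n = Real.exp (n * lam) := by
    intro n
    rw [hlam, mul_comm, Real.exp_mul, Real.exp_log hv0, Real.rpow_natCast]
  -- choose a fraction
  have hch : ∀ c ∈ s, ∃ x : ℚ, x.den < B ^ 2 ∧ |r * v ^ c - x| < 1 / B ^ w := by
    intro c hc
    obtain ⟨_, a, b, hb1, hb2, _, hb4⟩ := hs c hc
    have hb0 : (0 : ℝ) < b := by linarith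
    have hbn : b ≠ 0 := by
      rintro rfl; simp at hb0
    refine ⟨(a : ℚ) / b, ?_, ?_⟩
    · have h1 : ((a : ℚ) / (b : ℚ)).den ≤ b := by
        have := Rat.den_dvd a (b : ℤ)
        rw [Rat.divInt_eq_div] at this
        have h2 : (((a : ℚ) / ((b : ℤ) : ℚ)).den : ℤ) ≤ (b : ℤ) :=
          Int.le_of_dvd (by exact_mod_cast Nat.pos_of_ne_zero hbn) this
        have h3 : ((a : ℚ) / ((b : ℤ) : ℚ)).den ≤ b := by exact_mod_cast h2
        simpa using h3
      calc ((((a : ℚ) / (b : ℚ)).den : ℕ) : ℝ) ≤ b := by exact_mod_cast h1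
        _ < B ^ 2 := hb2
    · push_cast
      refine hb4.trans_le ?_
      apply one_div_le_one_div_of_le (by positivity)
      gcongr
  choose! x hx1 hx2 using hch
  have hrv : ∀ c ∈ s, r ≤ r * v ^ c ∧ r * v ^ c ≤ r + 4 * J * lam := by
    intro c hc
    have hcJ : (c : ℝ) ≤ J := by exact_mod_cast (hs c hc).1
    have h1 : 1 ≤ v ^ c := one_le_pow₀ hv.le
    refine ⟨by nlinarith, ?_⟩
    have h2 : v ^ c ≤ 1 + 2 * (J * lam) := by
      rw [hpowexp]
      have h3 : (c : ℝ) * lam ≤ J * lam := by gcongr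
      have h4 : 0 ≤ (J : ℝ) * lam := by positivity
      calc Real.exp (c * lam) ≤ Real.exp (J * lam) := Real.exp_le_exp.2 h3
        _ ≤ 1 + 2 * (J * lam) := by
          have := Real.abs_exp_sub_one_le (x := J * lam) (by rw [abs_of_nonneg h4]; exact hJl)
          rw [abs_of_nonneg h4] at this
          have := (le_abs_self _).trans this
          linarith
    have h5 : 0 ≤ (J : ℝ) * lam := by positivity
    nlinarith
  -- the fibres
  have hfib : ∀ y ∈ s.image x, (((s.filter fun c => x c = y).card : ℕ) : ℝ) ≤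
      2 * (1 / B ^ w) / lam + 1 := by
    intro y _
    set t := s.filter fun c => x c = y with ht
    have hstep : ∀ c d : ℕ, c < d → lam ≤ r * v ^ d - r * v ^ c := by
      intro c d hcd
      have h1 : v ^ (c + 1) ≤ v ^ d := pow_le_pow_right₀ hv.le hcd
      have h2 : 1 ≤ v ^ c := one_le_pow₀ hv.le
      have h3 : lam ≤ v - 1 := by
        have := Real.log_le_sub_one_of_pos hv0
        linarith
      have h4 : v ^ (c + 1) = v ^ c * v := pow_succ _ _
      have h5 : v - 1 ≤ v ^ c * (v - 1) := by nlinarith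
      have h6 : v ^ c * (v - 1) ≤ r * (v ^ c * (v - 1)) := by nlinarith
      nlinarith
    have hinj : Set.InjOn (fun c : ℕ => r * v ^ c) (t : Set ℕ) := by
      intro c _ d _ hcd
      simp only at hcd
      rcases lt_trichotomy c d with h | h | h
      · have := hstep c d h; linarith
      · exact h
      · have := hstep d c h; linarith
    have hcard : t.card = (t.image fun c : ℕ => r * v ^ c).card :=
      (Finset.card_image_of_injOn hinj).symm
    rw [hcard]
    apply card_le_of_separated _ _ _ hlam0 (by positivity)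
    · intro a ha b hb hab
      simp only [Finset.mem_image] at ha hb
      obtain ⟨c, _, rfl⟩ := ha
      obtain ⟨d, _, rfl⟩ := hb
      rcases lt_trichotomy c d with h | h | h
      · have := hstep c d h
        rw [abs_sub_comm]
        exact this.trans (le_abs_self _)
      · subst h; exact absurd rfl hab
      · exact (hstep d c h).trans (le_abs_self _)
    · intro a ha b hb
      simp only [Finset.mem_image, ht, Finset.mem_filter] at ha hb
      obtain ⟨c, ⟨hc, hcy⟩, rfl⟩ := ha
      obtain ⟨d, ⟨hd, hdy⟩, rfl⟩ := hb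
      have h1 := hx2 c hc
      have h2 := hx2 d hd
      rw [hcy] at h1
      rw [hdy] at h2
      have : r * v ^ c - r * v ^ d = (r * v ^ c - y) - (r * v ^ d - y) := by ring
      rw [this]
      refine (abs_sub _ _).trans ?_
      linarith
  -- the fractions
  have himg : ((s.image x).card : ℝ) ≤ 4 * J * lam * B ^ 4 + 2 := by
    have hinj : Set.InjOn (fun y : ℚ => (y : ℝ)) ((s.image x : Finset ℚ) : Set ℚ) :=
      fun a _ b _ h => Rat.cast_injective h
    have hcard : (s.image x).card = ((s.image x).image fun y : ℚ => (y : ℝ)).card :=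
      (Finset.card_image_of_injOn hinj).symm
    rw [hcard]
    have hBw : (1 : ℝ) / B ^ w * B ^ 4 ≤ 1 / 2 := by
      have h1 : B ^ 5 ≤ B ^ w := pow_le_pow_right₀ (by linarith) (by omega)
      rw [one_div_mul_eq_div, div_le_div_iff₀ (by positivity) (by norm_num)]
      have : B ^ 5 = B ^ 4 * B := by ring
      nlinarith [pow_pos hBpos 4]
    have hsepc := card_le_of_separated ((s.image x).image fun y : ℚ => (y : ℝ))
      (1 / B ^ 4) (4 * J * lam + 2 * (1 / B ^ w)) (by positivity) (by positivity) ?_ ?_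
    · refine hsepc.trans ?_
      rw [div_div_eq_mul_div, div_one]
      nlinarith
    · intro a ha b hb hab
      simp only [Finset.mem_image] at ha hb
      obtain ⟨y, ⟨c, hc, rfl⟩, rfl⟩ := ha
      obtain ⟨z, ⟨d, hd, rfl⟩, rfl⟩ := hb
      have hne : x c ≠ x d := fun h => hab (by rw [h])
      have hsub : x c - x d ≠ 0 := sub_ne_zero.2 hne
      have h1 : |(((x c - x d : ℚ)) : ℝ)| = |(((x c - x d).num : ℤ) : ℝ)| / (x c - x d).den := by
        conv_lhs => rw [← Rat.num_div_den (x c - x d)]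
        push_cast
        rw [abs_div, Nat.abs_cast]
      have h2 : (1 : ℝ) ≤ |(((x c - x d).num : ℤ) : ℝ)| := by
        have : (1 : ℤ) ≤ |(x c - x d).num| := Int.one_le_abs (Rat.num_ne_zero.2 hsub)
        exact_mod_cast this
      have h3 : (((x c - x d).den : ℕ) : ℝ) ≤ B ^ 4 := by
        have h4 : (x c - x d).den ≤ (x c).den * (x d).den :=
          Nat.le_of_dvd (Nat.mul_pos (x c).den_pos (x d).den_pos) (Rat.sub_den_dvd _ _)
        calc (((x c - x d).den : ℕ) : ℝ) ≤ ((x c).den * (x d).den : ℕ) := by exact_mod_cast h4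
          _ = ((x c).den : ℝ) * ((x d).den : ℝ) := by push_cast; ring
          _ ≤ B ^ 2 * B ^ 2 := by
              apply mul_le_mul (hx1 c hc).le (hx1 d hd).le (by positivity) (by positivity)
          _ = B ^ 4 := by ring
      have h5 : (0 : ℝ) < (x c - x d).den := by exact_mod_cast (x c - x d).den_pos
      have h6 : ((x c : ℝ) - (x d : ℝ)) = (((x c - x d : ℚ)) : ℝ) := by push_cast; ring
      rw [h6, h1, div_le_div_iff₀ (by positivity) h5]
      nlinarith
    · intro a ha b hb
      simp only [Finset.mem_image] at ha hb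
      obtain ⟨y, ⟨c, hc, rfl⟩, rfl⟩ := ha
      obtain ⟨z, ⟨d, hd, rfl⟩, rfl⟩ := hb
      have h1 := abs_lt.1 (hx2 c hc)
      have h2 := abs_lt.1 (hx2 d hd)
      have h3 := hrv c hc
      have h4 := hrv d hd
      rw [abs_le]
      constructor <;> nlinarith [h1.1, h1.2, h2.1, h2.2, h3.1, h3.2, h4.1, h4.2]
  have hsum : (s.card : ℝ) = ∑ y ∈ s.image x, (((s.filter fun c => x c = y).card : ℕ) : ℝ) := by
    rw [← Nat.cast_sum]
    congr 1
    exact Finset.card_eq_sum_card_image x s
  rw [hsum]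
  calc ∑ y ∈ s.image x, (((s.filter fun c => x c = y).card : ℕ) : ℝ)
      ≤ ∑ y ∈ s.image x, (2 * (1 / B ^ w) / lam + 1) := Finset.sum_le_sum hfib
    _ = (s.image x).card * (2 * (1 / B ^ w) / lam + 1) := by
        rw [Finset.sum_const, nsmul_eq_mul]
    _ ≤ (4 * J * lam * B ^ 4 + 2) * (2 * (1 / B ^ w) / lam + 1) := by
        apply mul_le_mul_of_nonneg_right himg (by positivity)

end Pool.Agent.Helper1.Stage
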