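import Mathlib
import Pool.Agent.Helper8.Defs

set_option autoImplicit false

open Finset Pool.Agent.Helper8

namespace Pool.Agent.Helper1.Stage

lemma zpow_mul_toNat (x : ℝ) (hx : x ≠ 0) (e : ℤ) :
    x ^ e * x ^ ((-e).toNat) = x ^ (e.toNat) := by
  rw [← zpow_natCast x ((-e).toNat), ← zpow_natCast x (e.toNat), ← zpow_add₀ hx]
  congr 1
  omega

lemma toNat_neg_le_abs (e : ℤ) : (((-e).toNat : ℕ) : ℝ) ≤ |(e : ℝ)| := by
  have : (((-e).toNat : ℕ) : ℤ) ≤ |e| := by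
    rcases abs_cases e with h | h <;> omega
  exact_mod_cast this

/-- the top scales contain nothing bad -/
lemma top_bound (w J : ℕ) (B r v h : ℝ) (r1 r2 f1 f2 : ℤ) (hw : 1 ≤ w) (hB : 1 ≤ B)
    (hr : r = (2 : ℝ) ^ r1 * (3 : ℝ) ^ r2) (hv : v = (2 : ℝ) ^ f1 * (3 : ℝ) ^ f2)
    (hh : h = |(f1 : ℝ)| * Real.log 2 + |(f2 : ℝ)| * Real.log 3)
    (c : ℕ) (hc : c ≤ J) (hbad : IsBad w r v B c) :
    ((w : ℝ) - 1) * Real.log B <
      |(r1 : ℝ)| * Real.log 2 + |(r2 : ℝ)| * Real.log 3 + J * h := by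
  obtain ⟨a, b, hb1, hb2, hne, hlt⟩ := hbad
  have hb0 : (0 : ℝ) < b := by linarith
  set e1 : ℤ := r1 + c * f1 with he1
  set e2 : ℤ := r2 + c * f2 with he2
  have hval : r * v ^ c = (2 : ℝ) ^ e1 * (3 : ℝ) ^ e2 := by
    rw [hr, hv, he1, he2, zpow_add₀ (by norm_num), zpow_add₀ (by norm_num), mul_pow,
      mul_comm (c : ℤ) f1, mul_comm (c : ℤ) f2, zpow_mul, zpow_mul, zpow_natCast, zpow_natCast]
    ring
  set Y : ℕ := 2 ^ ((-e1).toNat) * 3 ^ ((-e2).toNat) with hY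
  set X : ℕ := 2 ^ (e1.toNat) * 3 ^ (e2.toNat) with hX
  have hYpos : (0 : ℝ) < Y := by
    have : 0 < Y := by positivity
    exact_mod_cast this
  have hXY : r * v ^ c * Y = X := by
    rw [hval, hY, hX]
    push_cast
    rw [← zpow_mul_toNat 2 (by norm_num) e1, ← zpow_mul_toNat 3 (by norm_num) e2]
    ring
  have hint : (1 : ℝ) ≤ |r * v ^ c - (a : ℝ) / b| * (Y * b) := by
    have h1 : |r * v ^ c - (a : ℝ) / b| * (Y * b) = |(((X * b : ℕ) : ℤ) - a * Y : ℤ)| := by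
      have : (0 : ℝ) ≤ Y * b := by positivity
      rw [← abs_of_nonneg this, ← abs_mul]
      push_cast
      congr 1
      rw [← hXY]
      field_simp
    rw [h1]
    have h2 : (((X * b : ℕ) : ℤ) - a * Y : ℤ) ≠ 0 := by
      intro h0
      apply hne
      have h3 : ((X * b : ℕ) : ℤ) = a * Y := by omega
      have h4 : (X : ℝ) * b = a * Y := by exact_mod_cast h3
      rw [← hXY] at h4
      field_simp
      have : (a : ℝ) * Y = r * v ^ c * b * Y := by rw [← h4]; ring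
      have := mul_right_cancel₀ hYpos.ne' this
      linarith
    have h3 : (1 : ℤ) ≤ |(((X * b : ℕ) : ℤ) - a * Y : ℤ)| := Int.one_le_abs h2
    exact_mod_cast h3
  have hpow : (b : ℝ) ^ (w - 1) < Y := by
    have h1 : |r * v ^ c - (a : ℝ) / b| * (Y * b) < 1 / (b : ℝ) ^ w * (Y * b) := by
      apply mul_lt_mul_of_pos_right hlt (by positivity)
    have h2 : 1 < 1 / (b : ℝ) ^ w * (Y * b) := hint.trans_lt h1
    obtain ⟨w', rfl⟩ : ∃ w', w = w' + 1 := ⟨w - 1, by omega⟩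
    simp only [Nat.add_sub_cancel]
    have h3 : 1 / (b : ℝ) ^ (w' + 1) * (Y * b) = Y / (b : ℝ) ^ w' := by
      rw [pow_succ]; field_simp
    rw [h3, lt_div_iff₀ (by positivity), one_mul] at h2
    exact h2
  have hlog : ((w : ℝ) - 1) * Real.log b < Real.log Y := by
    have h1 := Real.log_lt_log (by positivity) hpow
    rw [Real.log_pow] at h1
    have : ((w - 1 : ℕ) : ℝ) = (w : ℝ) - 1 := by
      rw [Nat.cast_sub hw]; simp
    rwa [this] at h1
  have hlogB : Real.log B ≤ Real.log b := Real.log_le_log (by linarith) hb1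
  have hw' : (0 : ℝ) ≤ (w : ℝ) - 1 := by
    have : (1 : ℝ) ≤ w := by exact_mod_cast hw
    linarith
  have hlogY : Real.log Y ≤
      |(r1 : ℝ)| * Real.log 2 + |(r2 : ℝ)| * Real.log 3 + J * h := by
    rw [hY]
    push_cast
    rw [Real.log_mul (by positivity) (by positivity), Real.log_pow, Real.log_pow]
    have h2 : 0 < Real.log 2 := Real.log_pos (by norm_num)
    have h3 : 0 < Real.log 3 := Real.log_pos (by norm_num)
    have a1 := toNat_neg_le_abs e1
    have a2 := toNat_neg_le_abs e2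
    have b1 : |(e1 : ℝ)| ≤ |(r1 : ℝ)| + c * |(f1 : ℝ)| := by
      rw [he1]; push_cast
      refine (abs_add_le _ _).trans ?_
      rw [abs_mul, Nat.abs_cast]
    have b2 : |(e2 : ℝ)| ≤ |(r2 : ℝ)| + c * |(f2 : ℝ)| := by
      rw [he2]; push_cast
      refine (abs_add_le _ _).trans ?_
      rw [abs_mul, Nat.abs_cast]
    have hcJ : (c : ℝ) ≤ J := by exact_mod_cast hc
    have h0 : 0 ≤ h := by rw [hh]; positivity
    calc (((-e1).toNat : ℕ) : ℝ) * Real.log 2 + (((-e2).toNat : ℕ) : ℝ) * Real.log 3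
        ≤ (|(r1 : ℝ)| + c * |(f1 : ℝ)|) * Real.log 2 +
          (|(r2 : ℝ)| + c * |(f2 : ℝ)|) * Real.log 3 := by
          gcongr
          · exact a1.trans b1
          · exact a2.trans b2
      _ = |(r1 : ℝ)| * Real.log 2 + |(r2 : ℝ)| * Real.log 3 + c * h := by rw [hh]; ring
      _ ≤ |(r1 : ℝ)| * Real.log 2 + |(r2 : ℝ)| * Real.log 3 + J * h := by gcongr
  calc ((w : ℝ) - 1) * Real.log B ≤ ((w : ℝ) - 1) * Real.log b := by gcongr
    _ < Real.log Y := hlog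
    _ ≤ _ := hlogY

/-- exponents of a quotient of coprime smooth numbers -/
lemma quotient_exponents (p q : ℕ) (hpq : p.Coprime q) (hp : Smooth23 p) (hq : Smooth23 q) :
    ∃ r1 r2 : ℤ, (p : ℝ) / q = (2 : ℝ) ^ r1 * (3 : ℝ) ^ r2 ∧
      |(r1 : ℝ)| * Real.log 2 + |(r2 : ℝ)| * Real.log 3 = Real.log p + Real.log q := by
  obtain ⟨i, j, rfl⟩ := hp
  obtain ⟨k, l, rfl⟩ := hq
  refine ⟨(i : ℤ) - k, (j : ℤ) - l, ?_, ?_⟩
  · rw [zpow_sub₀ (by norm_num), zpow_sub₀ (by norm_num)]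
    push_cast
    simp only [zpow_natCast]
    field_simp
  · have h1 : i = 0 ∨ k = 0 := by
      by_contra hcon
      push Not at hcon
      have d1 : 2 ∣ 2 ^ i * 3 ^ j := Dvd.dvd.mul_right (dvd_pow_self 2 hcon.1) _
      have d2 : 2 ∣ 2 ^ k * 3 ^ l := Dvd.dvd.mul_right (dvd_pow_self 2 hcon.2) _
      have := Nat.dvd_gcd d1 d2
      rw [hpq.gcd_eq_one] at this
      omega
    have h2 : j = 0 ∨ l = 0 := by
      by_contra hcon
      push Not at hcon
      have d1 : 3 ∣ 2 ^ i * 3 ^ j := Dvd.dvd.mul_left (dvd_pow_self 3 hcon.1) _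
      have d2 : 3 ∣ 2 ^ k * 3 ^ l := Dvd.dvd.mul_left (dvd_pow_self 3 hcon.2) _
      have := Nat.dvd_gcd d1 d2
      rw [hpq.gcd_eq_one] at this
      omega
    have e1 : |(((i : ℤ) - k : ℤ) : ℝ)| = i + k := by
      rcases h1 with rfl | rfl <;> simp
    have e2 : |(((j : ℤ) - l : ℤ) : ℝ)| = j + l := by
      rcases h2 with rfl | rfl <;> simp
    rw [e1, e2]
    push_cast
    rw [Real.log_mul (by positivity) (by positivity), Real.log_mul (by positivity) (by positivity),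
      Real.log_pow, Real.log_pow, Real.log_pow, Real.log_pow]
    ring

/-- the new fraction -/
lemma fraction_of_exponents (x : ℝ) (e1 e2 : ℤ) (hx : x = (2 : ℝ) ^ e1 * (3 : ℝ) ^ e2)
    (h1 : 1 < x) (h2 : x < 2) :
    ∃ p' q' : ℕ, p'.Coprime q' ∧ Smooth23 p' ∧ Smooth23 q' ∧ q' < p' ∧ p' < 2 * q' ∧
      (p' : ℝ) / q' = x := by
  have main : ∀ p' q' : ℕ, p'.Coprime q' → Smooth23 p' → Smooth23 q' → 0 < q' →
      (p' : ℝ) / q' = x →
      ∃ p' q' : ℕ, p'.Coprime q' ∧ Smooth23 p' ∧ Smooth23 q' ∧ q' < p' ∧ p' < 2 * q' ∧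
      (p' : ℝ) / q' = x := by
    intro p' q' hc hp hq hq0 he
    have hq0' : (0 : ℝ) < q' := by exact_mod_cast hq0
    refine ⟨p', q', hc, hp, hq, ?_, ?_, he⟩
    · have : (q' : ℝ) < p' := by
        rw [← he, lt_div_iff₀ hq0', one_mul] at h1
        exact h1
      exact_mod_cast this
    · have : (p' : ℝ) < 2 * q' := by
        rw [← he, div_lt_iff₀ hq0'] at h2
        exact h2
      exact_mod_cast this
  rcases le_or_gt 0 e1 with ha | ha <;> rcases le_or_gt 0 e2 with hb | hb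
  · exfalso
    obtain ⟨m, rfl⟩ := Int.eq_ofNat_of_zero_le ha
    obtain ⟨n, rfl⟩ := Int.eq_ofNat_of_zero_le hb
    have h3 : x = ((2 ^ m * 3 ^ n : ℕ) : ℝ) := by
      rw [hx]; push_cast; simp only [zpow_natCast]
    rw [h3] at h1 h2
    have h1' : 1 < 2 ^ m * 3 ^ n := by exact_mod_cast h1
    have h2' : 2 ^ m * 3 ^ n < 2 := by exact_mod_cast h2
    omega
  · obtain ⟨m, rfl⟩ := Int.eq_ofNat_of_zero_le ha
    obtain ⟨n, hn⟩ := Int.eq_ofNat_of_zero_le (show 0 ≤ -e2 by omega)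
    have he2 : e2 = -(n : ℤ) := by omega
    refine main (2 ^ m) (3 ^ n) ?_ ⟨m, 0, by simp⟩ ⟨0, n, by simp⟩ (by positivity) ?_
    · exact Nat.Coprime.pow _ _ (by norm_num)
    · rw [hx, he2, zpow_neg]
      push_cast
      simp only [zpow_natCast]
      field_simp
  · obtain ⟨m, hm⟩ := Int.eq_ofNat_of_zero_le (show 0 ≤ -e1 by omega)
    obtain ⟨n, rfl⟩ := Int.eq_ofNat_of_zero_le hb
    have he1 : e1 = -(m : ℤ) := by omega
    refine main (3 ^ n) (2 ^ m) ?_ ⟨0, n, by simp⟩ ⟨m, 0, by simp⟩ (by positivity) ?_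
    · exact Nat.Coprime.pow _ _ (by norm_num)
    · rw [hx, he1, zpow_neg]
      push_cast
      simp only [zpow_natCast]
      field_simp
  · exfalso
    have h3 : (2 : ℝ) ^ e1 ≤ 1 := zpow_le_one_of_nonpos₀ (by norm_num) ha.le
    have h4 : (3 : ℝ) ^ e2 ≤ 1 := zpow_le_one_of_nonpos₀ (by norm_num) hb.le
    have h5 : (0 : ℝ) < (2 : ℝ) ^ e1 := by positivity
    have h6 : (0 : ℝ) < (3 : ℝ) ^ e2 := by positivity
    rw [hx] at h1
    nlinarith

end Pool.Agent.Helper1.Stage
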