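import Mathlib

set_option autoImplicit false

open Finset

namespace Pool.Agent.Helper1.Stage

/-- summable weights -/
noncomputable def gw (m : ℕ) : ℝ := 1 / (((m : ℝ) + 1) * Real.sqrt ((m : ℝ) + 1))

lemma gw_nonneg (m : ℕ) : 0 ≤ gw m := by unfold gw; positivity

lemma gw_summable : Summable gw := by
  have h := (Real.summable_one_div_nat_rpow (p := 3 / 2)).2 (by norm_num)
  have h2 := (summable_nat_add_iff 1).2 h
  refine h2.congr ?_
  intro m
  unfold gw
  push_cast
  have hpos : (0 : ℝ) < (m : ℝ) + 1 := by positivity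
  have : (3 / 2 : ℝ) = 1 + 1 / 2 := by norm_num
  rw [this, Real.rpow_add hpos, Real.rpow_one, Real.sqrt_eq_rpow]

noncomputable def Zc : ℝ := ∑' m, gw m

lemma sum_gw_le (s : Finset ℕ) : ∑ m ∈ s, gw m ≤ Zc :=
  gw_summable.sum_le_tsum s (fun m _ => gw_nonneg m)

lemma Zc_nonneg : 0 ≤ Zc := tsum_nonneg gw_nonneg

lemma cube_log_le (S : ℝ) (hS : 1 ≤ S) : (Real.log S) ^ 3 ≤ 27 * S := by
  set L := Real.log S with hL
  have hL0 : 0 ≤ L := Real.log_nonneg hS
  have h1 : L / 3 ≤ Real.exp (L / 3) := by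
    have := Real.add_one_le_exp (L / 3)
    linarith
  have h2 : (L / 3) ^ 3 ≤ Real.exp (L / 3) ^ 3 := pow_le_pow_left₀ (by positivity) h1 3
  have h3 : Real.exp (L / 3) ^ 3 = S := by
    rw [← Real.exp_nat_mul]
    have : ((3 : ℕ) : ℝ) * (L / 3) = L := by push_cast; ring
    rw [this, hL, Real.exp_log (by linarith)]
  rw [h3] at h2
  have : (L / 3) ^ 3 = L ^ 3 / 27 := by ring
  rw [this] at h2
  linarith

/-- one scale in the window range -/
lemma win_term (C J w t S X : ℝ) (m : ℕ) (hC : 1 ≤ C) (hJ : 0 < J) (hw : 104 ≤ w) (ht : 1 ≤ t)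
    (htJ : (w - 1) * t < 2 * J) (hS : S = 8 * J / (w * t) + 1) (hX1 : 1 ≤ X) (hX : X ≤ w * S)
    (hS3 : 3 * 2 ^ m ≤ S) :
    C * (t + 1) * (Real.sqrt S + S * Real.sqrt (Real.log X) / (Real.log S) ^ 2) ≤
      384 * C * (J / w) * Real.sqrt (Real.log w) * gw m := by
  have hw0 : 0 < w := by linarith
  have hSpos : 0 < S := lt_of_lt_of_le (by positivity) hS3
  have hS3' : 3 ≤ S := by
    have : (1 : ℝ) ≤ 2 ^ m := one_le_pow₀ (by norm_num)
    linarith
  have hl2 : 0.6931 < Real.log 2 := by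
    have h2 : 0.6931471803 < Real.log 2 := Real.log_two_gt_d9
    linarith
  have hlog3 : 1 ≤ Real.log 3 := by
    rw [Real.le_log_iff_exp_le (by norm_num)]
    exact Real.exp_one_lt_three.le
  have hlog3' : Real.log 2 ≤ Real.log 3 := Real.log_le_log (by norm_num) (by norm_num)
  set L := Real.log S with hL
  have hL1 : 1 ≤ L := hlog3.trans (Real.log_le_log (by norm_num) hS3')
  have hLm : ((m : ℝ) + 1) * Real.log 2 ≤ L := by
    have h1 := Real.log_le_log (by positivity) hS3
    rw [Real.log_mul (by norm_num) (by positivity), Real.log_pow] at h1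
    linarith
  have hW1 : 1 ≤ Real.log w := by
    rw [Real.le_log_iff_exp_le hw0]
    have := Real.exp_one_lt_three
    linarith
  set W := Real.sqrt (Real.log w) with hW
  have hW1' : 1 ≤ W := by rw [hW]; exact Real.one_le_sqrt.2 hW1
  have hWsq : W ^ 2 = Real.log w := Real.sq_sqrt (by linarith)
  set R := Real.sqrt L with hR
  have hR1 : 1 ≤ R := by rw [hR]; exact Real.one_le_sqrt.2 hL1
  have hRsq : R ^ 2 = L := Real.sq_sqrt (by linarith)
  -- sqrt S
  have ha : Real.sqrt S ≤ 6 * W * (S / (L * R)) := by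
    have h1 : (L * R) ≤ 6 * Real.sqrt S := by
      apply le_of_sq_le_sq _ (by positivity)
      have : (L * R) ^ 2 = L ^ 3 := by rw [mul_pow, hRsq]; ring
      rw [this, mul_pow, Real.sq_sqrt hSpos.le]
      have := cube_log_le S (by linarith)
      rw [← hL] at this
      linarith
    have h2 : Real.sqrt S * (L * R) ≤ 6 * S := by
      calc Real.sqrt S * (L * R) ≤ Real.sqrt S * (6 * Real.sqrt S) := by gcongr
        _ = 6 * (Real.sqrt S * Real.sqrt S) := by ring
        _ = 6 * S := by rw [Real.mul_self_sqrt hSpos.le]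
    have h3 : Real.sqrt S ≤ 6 * (S / (L * R)) := by
      rw [← mul_div_assoc, le_div_iff₀ (by positivity)]
      exact h2
    have h4 : 0 ≤ S / (L * R) := by positivity
    nlinarith
  -- the other term
  have hb : S * Real.sqrt (Real.log X) / L ^ 2 ≤ 2 * W * (S / (L * R)) := by
    have h1 : Real.log X ≤ 2 * Real.log w * L := by
      have h2 : Real.log X ≤ Real.log w + L := by
        rw [hL, ← Real.log_mul hw0.ne' hSpos.ne']
        exact Real.log_le_log (by linarith) hX
      nlinarith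
    have h2 : Real.sqrt (Real.log X) ≤ 2 * W * R := by
      apply Real.sqrt_le_iff.2
      refine ⟨by positivity, h1.trans ?_⟩
      rw [mul_pow, mul_pow, hWsq, hRsq]
      have : 0 ≤ Real.log w * L := by positivity
      nlinarith
    have h3 : S * (2 * W * R) / L ^ 2 = 2 * W * (S / (L * R)) := by
      have hL0 : L ≠ 0 := by linarith
      have hR0 : R ≠ 0 := by linarith
      rw [div_eq_iff (by positivity)]
      have : L ^ 2 = L * R * R := by rw [mul_assoc, ← sq, hRsq]; ring
      rw [this]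
      field_simp
    rw [← h3]
    gcongr
  have hsum : Real.sqrt S + S * Real.sqrt (Real.log X) / L ^ 2 ≤ 8 * W * (S / (L * R)) := by
    linarith
  have hg : 1 / (L * R) ≤ 2 * gw m := by
    have hm : (0 : ℝ) < (m : ℝ) + 1 := by positivity
    set Q := Real.sqrt ((m : ℝ) + 1) with hQ
    have hQpos : 0 < Q := Real.sqrt_pos.2 hm
    have h1 : ((m : ℝ) + 1) * 0.6931 ≤ L := by nlinarith
    have h2 : 0.8 * Q ≤ R := by
      rw [hR]
      apply Real.le_sqrt_of_sq_le
      rw [mul_pow, hQ, Real.sq_sqrt hm.le]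
      nlinarith
    have h3 : ((m : ℝ) + 1) * Q ≤ 2 * (L * R) := by
      have : ((m : ℝ) + 1) * 0.6931 * (0.8 * Q) ≤ L * R := by gcongr
      nlinarith [mul_pos hm hQpos]
    unfold gw
    rw [← hQ, ← mul_div_assoc, mul_one, div_le_div_iff₀ (by positivity) (by positivity)]
    linarith
  have htS : t * S ≤ 12 * (J / w) := by
    have h1 : t * S = 8 * (J / w) + t := by
      rw [hS]; field_simp
    have h2 : t ≤ 4 * (J / w) := by
      rw [← mul_div_assoc, le_div_iff₀ hw0]
      nlinarith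
    linarith
  have hgm := gw_nonneg m
  calc C * (t + 1) * (Real.sqrt S + S * Real.sqrt (Real.log X) / L ^ 2)
      ≤ C * (2 * t) * (8 * W * (S / (L * R))) := by
        have h0 : 0 ≤ Real.sqrt S + S * Real.sqrt (Real.log X) / L ^ 2 := by positivity
        apply mul_le_mul _ hsum h0 (by positivity)
        apply mul_le_mul_of_nonneg_left (by linarith) (by linarith)
    _ = 16 * C * W * (t * S) * (1 / (L * R)) := by ring
    _ ≤ 16 * C * W * (12 * (J / w)) * (2 * gw m) := by
        gcongr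
    _ = 384 * C * (J / w) * W * gw m := by ring

/-- the sum over the windows -/
lemma win_sum (C : ℝ) (hC : 1 ≤ C) (w J : ℕ) (hw : 104 ≤ w) (hwC : (3072 * C * Zc) ^ 2 ≤ w)
    (lq h : ℝ) (hlq : 1 ≤ lq) (hh : 0 < h) (hJ : 1 ≤ J) (n : ℕ → ℝ) (Win : Finset ℕ)
    (h1 : ∀ j ∈ Win, h ≤ 2 ^ j * lq) (h2 : ∀ j ∈ Win, ((w : ℝ) - 1) * (2 ^ j * lq) < 2 * J * h)
    (hn : ∀ j ∈ Win, n j ≤ C * ((2 ^ j * lq) / h + 1) *
      (Real.sqrt (4 * J / max 1 ((w : ℝ) / 2 * (2 ^ j * lq) / h) + 1) +
        (4 * J / max 1 ((w : ℝ) / 2 * (2 ^ j * lq) / h) + 1) *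
          Real.sqrt (Real.log (J * h / (2 ^ j * lq) + 2)) /
          (Real.log (4 * J / max 1 ((w : ℝ) / 2 * (2 ^ j * lq) / h) + 1)) ^ 2)) :
    ∑ j ∈ Win, n j ≤ J / 8 := by
  rcases Win.eq_empty_or_nonempty with rfl | hne
  · simp; positivity
  set M := Win.max' hne with hM
  have hMW : M ∈ Win := Win.max'_mem hne
  have hw' : (104 : ℝ) ≤ w := by exact_mod_cast hw
  have hJ' : (1 : ℝ) ≤ J := by exact_mod_cast hJ
  have hterm : ∀ j ∈ Win, n j ≤ 384 * C * (J / w) * Real.sqrt (Real.log w) * gw (M - j) := by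
    intro j hj
    refine (hn j hj).trans ?_
    have hjM : j ≤ M := Win.le_max' j hj
    have ht1 : 1 ≤ (2 ^ j * lq) / h := by rw [le_div_iff₀ hh, one_mul]; exact h1 j hj
    have hmax : max 1 ((w : ℝ) / 2 * (2 ^ j * lq) / h) = (w : ℝ) / 2 * ((2 ^ j * lq) / h) := by
      rw [mul_div_assoc]
      apply max_eq_right
      nlinarith
    rw [hmax]
    set t : ℝ := (2 ^ j * lq) / h with ht
    set tM : ℝ := (2 ^ M * lq) / h with htM
    have htMt : tM = 2 ^ (M - j) * t := by
      rw [ht, htM, ← mul_div_assoc, ← mul_assoc, ← pow_add]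
      congr 3
      omega
    have htM1 : 1 ≤ tM := by rw [htM, le_div_iff₀ hh, one_mul]; exact h1 M hMW
    have htM2 : ((w : ℝ) - 1) * tM < 2 * J := by
      rw [htM, ← mul_div_assoc, div_lt_iff₀ hh]; exact h2 M hMW
    have ht2 : ((w : ℝ) - 1) * t < 2 * J := by
      rw [ht, ← mul_div_assoc, div_lt_iff₀ hh]; exact h2 j hj
    have hS : 4 * (J : ℝ) / ((w : ℝ) / 2 * t) + 1 = 8 * (J : ℝ) / (w * t) + 1 := by
      field_simp; ring
    have hXe : (J : ℝ) * h / (2 ^ j * lq) + 2 = J / t + 2 := by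
      rw [ht, div_div_eq_mul_div]
    rw [hS, hXe]
    have hSbig : 3 * 2 ^ (M - j) ≤ 8 * (J : ℝ) / (w * t) + 1 := by
      have h3 : 3 * 2 ^ (M - j) ≤ 8 * (J : ℝ) / (w * t) := by
        rw [le_div_iff₀ (by positivity)]
        have : 3 * 2 ^ (M - j) * ((w : ℝ) * t) = 3 * w * tM := by rw [htMt]; ring
        rw [this]
        nlinarith
      linarith
    apply win_term C J w t _ _ (M - j) hC (by linarith) hw' ht1 ht2 rfl
    · have : (0 : ℝ) ≤ J / t := by positivity
      linarith
    · have h4 : (w : ℝ) * (8 * (J : ℝ) / (w * t) + 1) = 8 * (J / t) + w := by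
        field_simp
      rw [h4]
      have : (0 : ℝ) ≤ J / t := by positivity
      linarith
    · exact hSbig
  have hsum : ∑ j ∈ Win, gw (M - j) ≤ Zc := by
    have hsub : Win ⊆ range (M + 1) := by
      intro j hj
      rw [mem_range]
      have := Win.le_max' j hj
      omega
    calc ∑ j ∈ Win, gw (M - j) ≤ ∑ j ∈ range (M + 1), gw (M - j) :=
          sum_le_sum_of_subset_of_nonneg hsub (fun j _ _ => gw_nonneg _)
      _ = ∑ m ∈ range (M + 1), gw m := by
          have := Finset.sum_range_reflect gw (M + 1)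
          rw [← this]
          simp
      _ ≤ Zc := sum_gw_le _
  have hW0 : 0 ≤ Real.sqrt (Real.log w) := Real.sqrt_nonneg _
  have hZ := Zc_nonneg
  calc ∑ j ∈ Win, n j ≤ ∑ j ∈ Win, 384 * C * (J / w) * Real.sqrt (Real.log w) * gw (M - j) :=
        sum_le_sum hterm
    _ = 384 * C * (J / w) * Real.sqrt (Real.log w) * ∑ j ∈ Win, gw (M - j) := by rw [mul_sum]
    _ ≤ 384 * C * (J / w) * Real.sqrt (Real.log w) * Zc := by gcongr
    _ ≤ J / 8 := by
        have hw0 : (0 : ℝ) < w := by linarith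
        set s := Real.sqrt (w : ℝ) with hs
        have hs0 : 0 < s := Real.sqrt_pos.2 hw0
        have hss : s * s = w := Real.mul_self_sqrt hw0.le
        have h3 : Real.sqrt (Real.log w) ≤ s := by
          apply Real.sqrt_le_sqrt
          have := Real.log_le_sub_one_of_pos hw0
          linarith
        have h4 : 3072 * C * Zc ≤ s := by
          rw [hs]
          exact Real.le_sqrt_of_sq_le hwC
        have h5 : 384 * C * Zc * Real.sqrt (Real.log w) ≤ w / 8 := by
          calc 384 * C * Zc * Real.sqrt (Real.log w) ≤ 384 * C * Zc * s := by gcongr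
            _ = (3072 * C * Zc) * s / 8 := by ring
            _ ≤ s * s / 8 := by gcongr
            _ = w / 8 := by rw [hss]
        have h6 : 384 * C * ((J : ℝ) / w) * Real.sqrt (Real.log w) * Zc =
            (384 * C * Zc * Real.sqrt (Real.log w)) * (J / w) := by ring
        rw [h6]
        calc (384 * C * Zc * Real.sqrt (Real.log w)) * ((J : ℝ) / w) ≤ w / 8 * (J / w) := by gcongr
          _ = J / 8 := by field_simp

end Pool.Agent.Helper1.Stage
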