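import Mathlib

set_option autoImplicit false

open Finset

namespace Pool.Agent.Helper1.Stage

/-- one middle scale -/
lemma mid_term (C J w b h : ℝ) (hC : 1 ≤ C) (hw : 104 ≤ w) (hwJ : w ^ 2 ≤ J)
    (hJ1 : 10816 ≤ J) (hh : 0 < h) (hb1 : 1 ≤ b) (hbh : b < h) (hhJ : h ≤ J ^ 2) :
    C * (b / h + 1) *
      (Real.sqrt (4 * J / max 1 (w / 2 * b / h) + 1) +
        (4 * J / max 1 (w / 2 * b / h) + 1) *
          Real.sqrt (Real.log (J * h / b + 2)) /
          (Real.log (4 * J / max 1 (w / 2 * b / h) + 1)) ^ 2) ≤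
      2 * C * (3 * Real.sqrt J + 40 * J / (Real.log J * Real.sqrt (Real.log J))) := by
  have hJpos : (0 : ℝ) < J := by linarith
  have hJ3 : (1 : ℝ) ≤ J ^ 3 := one_le_pow₀ (by linarith)
  set u := Real.log J with hu
  have hu1 : 1 ≤ u := by
    rw [hu, Real.le_log_iff_exp_le hJpos]
    have := Real.exp_one_lt_three
    linarith
  set s := Real.sqrt u with hs
  have hss : s * s = u := Real.mul_self_sqrt (by linarith)
  have hs0 : 0 < s := Real.sqrt_pos.2 (by linarith)
  set rJ := Real.sqrt (J : ℝ) with hrJ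
  have hrr : rJ * rJ = J := Real.mul_self_sqrt hJpos.le
  have hrJ0 : 0 < rJ := Real.sqrt_pos.2 hJpos
  have hrw : w ≤ rJ := by
    rw [hrJ]; exact Real.le_sqrt_of_sq_le hwJ
  have hb0 : 0 < b := by linarith
  have ht : b / h ≤ 1 := by rw [div_le_one hh]; exact hbh.le
  have ht0 : 0 < b / h := by positivity
  set S := 4 * J / max 1 (w / 2 * b / h) + 1 with hS
  have hmax1 : 1 ≤ max 1 (w / 2 * b / h) := le_max_left _ _
  have hmax2 : max 1 (w / 2 * b / h) ≤ w / 2 := by
    apply max_le (by linarith)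
    rw [mul_div_assoc]
    calc w / 2 * (b / h) ≤ w / 2 * 1 := by gcongr
      _ = w / 2 := mul_one _
  have hS1 : S ≤ 5 * J := by
    have : 4 * J / max 1 (w / 2 * b / h) ≤ 4 * J := div_le_self (by positivity) hmax1
    linarith
  have hS2 : rJ ≤ S := by
    have h3 : rJ ≤ 4 * J / max 1 (w / 2 * b / h) := by
      rw [le_div_iff₀ (by linarith)]
      calc rJ * max 1 (w / 2 * b / h) ≤ rJ * (w / 2) := by gcongr
        _ ≤ rJ * (rJ / 2) := by gcongr
        _ = (rJ * rJ) / 2 := by ring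
        _ ≤ 4 * J := by rw [hrr]; linarith
    linarith
  have hSpos : 0 < S := by linarith
  have hL : u / 2 ≤ Real.log S := by
    have h3 : Real.log rJ = u / 2 := by
      rw [hrJ, Real.log_sqrt hJpos.le]
    rw [← h3]
    exact Real.log_le_log hrJ0 hS2
  have hX : Real.log (J * h / b + 2) ≤ 4 * u := by
    have h3 : J * h / b ≤ J ^ 3 := by
      rw [div_le_iff₀ hb0]
      have h4 : J * h ≤ J * J ^ 2 := by gcongr
      have h5 : J * J ^ 2 = J ^ 3 * 1 := by ring
      have h6 : J ^ 3 * 1 ≤ J ^ 3 * b := by gcongr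
      linarith
    have h4 : J * h / b + 2 ≤ J ^ 4 := by
      have h5 : J ^ 4 = J ^ 3 * J := by ring
      have h6 : J ^ 3 * 3 ≤ J ^ 3 * J := by gcongr; linarith
      linarith
    have h5 : Real.log (J ^ 4) = 4 * u := by rw [Real.log_pow, hu]; norm_num
    rw [← h5]
    exact Real.log_le_log (by positivity) h4
  have hX2 : Real.sqrt (Real.log (J * h / b + 2)) ≤ 2 * s := by
    apply Real.sqrt_le_iff.2
    refine ⟨by positivity, hX.trans ?_⟩
    have : (2 * s) ^ 2 = 4 * (s * s) := by ring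
    rw [this, hss]
  have hsqS : Real.sqrt S ≤ 3 * rJ := by
    apply Real.sqrt_le_iff.2
    refine ⟨by positivity, hS1.trans ?_⟩
    have : (3 * rJ) ^ 2 = 9 * (rJ * rJ) := by ring
    rw [this, hrr]
    linarith
  have hu0 : 0 < u := by linarith
  have hsec : S * Real.sqrt (Real.log (J * h / b + 2)) / (Real.log S) ^ 2 ≤
      40 * J / (u * s) := by
    calc S * Real.sqrt (Real.log (J * h / b + 2)) / (Real.log S) ^ 2
        ≤ (5 * J) * (2 * s) / (u / 2) ^ 2 := by
          gcongr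
      _ = 40 * J / (u * s) := by
          rw [div_eq_div_iff (by positivity) (by positivity)]
          rw [← hss]; ring
  have h0 : 0 ≤ Real.sqrt S + S * Real.sqrt (Real.log (J * h / b + 2)) /
      (Real.log S) ^ 2 := by positivity
  have hfac : C * (b / h + 1) ≤ 2 * C := by
    have : C * (b / h + 1) ≤ C * (1 + 1) := by gcongr
    linarith
  exact mul_le_mul hfac (by linarith) h0 (by positivity)

/-- the middle scales -/
lemma mid_sum (C : ℝ) (hC : 1 ≤ C) (w J : ℕ) (hw : 104 ≤ w) (hwJ : w ^ 2 ≤ J)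
    (hJC : Real.exp ((5120 * C) ^ 2) ≤ J)
    (lq h : ℝ) (hlq : 1 ≤ lq) (hh : 0 < h) (hhJ : h ≤ (J : ℝ) ^ 2) (n : ℕ → ℝ) (Mid : Finset ℕ)
    (h1 : ∀ j ∈ Mid, 2 ^ j * lq < h)
    (hn : ∀ j ∈ Mid, n j ≤ C * ((2 ^ j * lq) / h + 1) *
      (Real.sqrt (4 * J / max 1 ((w : ℝ) / 2 * (2 ^ j * lq) / h) + 1) +
        (4 * J / max 1 ((w : ℝ) / 2 * (2 ^ j * lq) / h) + 1) *
          Real.sqrt (Real.log (J * h / (2 ^ j * lq) + 2)) /
          (Real.log (4 * J / max 1 ((w : ℝ) / 2 * (2 ^ j * lq) / h) + 1)) ^ 2)) :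
    ∑ j ∈ Mid, n j ≤ J / 8 := by
  have hw' : (104 : ℝ) ≤ w := by exact_mod_cast hw
  have hwJ' : (w : ℝ) ^ 2 ≤ J := by exact_mod_cast hwJ
  have hJ1 : (10816 : ℝ) ≤ J := by
    have : (104 : ℝ) ^ 2 ≤ (w : ℝ) ^ 2 := by gcongr
    norm_num at this
    linarith
  have hJpos : (0 : ℝ) < J := by linarith
  have hl2 : 0.6931 < Real.log 2 := by
    have h2 : 0.6931471803 < Real.log 2 := Real.log_two_gt_d9
    linarith
  have hterm : ∀ j ∈ Mid, n j ≤
      2 * C * (3 * Real.sqrt J + 40 * J / (Real.log J * Real.sqrt (Real.log J))) := by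
    intro j hj
    refine (hn j hj).trans (mid_term C J w (2 ^ j * lq) h hC hw' hwJ' hJ1 hh ?_ (h1 j hj) hhJ)
    have : (1 : ℝ) ≤ 2 ^ j := one_le_pow₀ (by norm_num)
    nlinarith
  clear hn
  set u := Real.log J with hu
  have hexpu : Real.exp u = J := Real.exp_log hJpos
  have hu1 : (5120 * C) ^ 2 ≤ u := by
    rw [hu, Real.le_log_iff_exp_le hJpos]; exact hJC
  have hu2 : 5120 * C ≤ u := by
    have : 5120 * C * 1 ≤ 5120 * C * (5120 * C) := by gcongr; linarith
    linarith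
  have hu3 : 5120 ≤ u := by linarith
  have hu0 : 0 < u := by linarith
  set s := Real.sqrt u with hs
  have hss : s * s = u := Real.mul_self_sqrt (by linarith)
  have hs1 : 5120 * C ≤ s := by
    rw [hs]; exact Real.le_sqrt_of_sq_le hu1
  have hs0 : 0 < s := by linarith
  set rJ := Real.sqrt (J : ℝ) with hrJ
  have hrr : rJ * rJ = J := Real.mul_self_sqrt hJpos.le
  have hrJ0 : 0 < rJ := Real.sqrt_pos.2 hJpos
  -- number of terms
  have hcard : (Mid.card : ℝ) ≤ 4 * u := by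
    have hsub : Mid ⊆ range (⌊3 * u⌋₊ + 1) := by
      intro j hj
      rw [mem_range, Nat.lt_succ_iff]
      apply Nat.le_floor
      have hb := h1 j hj
      have h3 : (2 : ℝ) ^ j ≤ J ^ 2 := by
        have : (2 : ℝ) ^ j * 1 ≤ 2 ^ j * lq := by gcongr
        linarith
      have h4 := Real.log_le_log (by positivity) h3
      rw [Real.log_pow, Real.log_pow] at h4
      have hj0 : (0 : ℝ) ≤ j := by positivity
      have h5 : (j : ℝ) * 0.6931 ≤ j * Real.log 2 := by gcongr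
      push_cast at h4
      linarith
    have h3 := Finset.card_le_card hsub
    rw [Finset.card_range] at h3
    have h4 : (Mid.card : ℝ) ≤ (⌊3 * u⌋₊ : ℝ) + 1 := by exact_mod_cast h3
    have h5 : (⌊3 * u⌋₊ : ℝ) ≤ 3 * u := Nat.floor_le (by linarith)
    linarith
  -- u ≤ small power
  have hfin1 : 24 * C * u * rJ ≤ J / 16 := by
    have h3 : u ^ 2 / 8 ≤ rJ := by
      have h4 : rJ = Real.exp (u / 2) := by
        rw [hrJ, Real.sqrt_eq_iff_mul_self_eq hJpos.le (Real.exp_pos _).le, ← Real.exp_add,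
          add_halves, hexpu]
      rw [h4]
      have := Real.quadratic_le_exp_of_nonneg (show 0 ≤ u / 2 by linarith)
      have h5 : (u / 2) ^ 2 / 2 = u ^ 2 / 8 := by ring
      linarith
    have h4 : 24 * C * u ≤ rJ / 16 := by
      have h5 : 384 * C * u ≤ u ^ 2 / 8 := by
        have h6 : 5120 * C * u ≤ u * u := by gcongr
        have h7 : 0 ≤ C * u := by positivity
        nlinarith
      linarith
    calc 24 * C * u * rJ ≤ rJ / 16 * rJ := by gcongr
      _ = (rJ * rJ) / 16 := by ring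
      _ = J / 16 := by rw [hrr]
  have hfin2 : 4 * u * (2 * C) * (40 * J / (u * s)) ≤ J / 16 := by
    have h3 : 4 * u * (2 * C) * (40 * J / (u * s)) = 320 * C / s * J := by
      field_simp; ring
    rw [h3]
    have h4 : 320 * C / s ≤ 1 / 16 := by
      rw [div_le_div_iff₀ hs0 (by norm_num)]
      linarith
    calc 320 * C / s * J ≤ 1 / 16 * J := by gcongr
      _ = J / 16 := by ring
  calc ∑ j ∈ Mid, n j ≤ ∑ j ∈ Mid, 2 * C * (3 * rJ + 40 * J / (u * s)) := sum_le_sum hterm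
    _ = Mid.card * (2 * C * (3 * rJ + 40 * J / (u * s))) := by
        rw [sum_const, nsmul_eq_mul]
    _ ≤ (4 * u) * (2 * C * (3 * rJ + 40 * J / (u * s))) := by gcongr
    _ = 24 * C * u * rJ + 4 * u * (2 * C) * (40 * J / (u * s)) := by ring
    _ ≤ J / 8 := by linarith

/-- the low scales -/
lemma low_sum (w J q : ℕ) (hw : 104 ≤ w) (hq : 60 ≤ q) (lam : ℝ) (hlam0 : 0 < lam)
    (hlam : lam ≤ 2 / (q : ℝ) ^ 11) (hinv : 1 / lam ≤ 2 * (q : ℝ) ^ 5 * J)
    (hJq : (q : ℝ) ^ 6 / 4 ≤ J) (n : ℕ → ℝ) (Low : Finset ℕ)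
    (h1 : ∀ j ∈ Low, lam * ((q : ℝ) ^ (2 ^ j)) ^ 8 < 1)
    (hn : ∀ j ∈ Low, n j ≤ (4 * J * lam * ((q : ℝ) ^ (2 ^ j)) ^ 4 + 2) *
      (2 * (1 / ((q : ℝ) ^ (2 ^ j)) ^ w) / lam + 1)) :
    ∑ j ∈ Low, n j ≤ J / 8 := by
  have hq' : (60 : ℝ) ≤ q := by exact_mod_cast hq
  have hq0 : (0 : ℝ) < q := by linarith
  have hJ0 : (0 : ℝ) < J := lt_of_lt_of_le (by positivity) hJq
  set Lam := Real.log (1 / lam) with hLam
  have hexpLam : Real.exp (-Lam) = lam := by
    rw [hLam, one_div, Real.log_inv, neg_neg, Real.exp_log hlam0]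
  have hlam8 : lam ≤ 1 / (q : ℝ) ^ 8 := by
    refine hlam.trans ?_
    rw [div_le_div_iff₀ (by positivity) (by positivity)]
    have h3 : (q : ℝ) ^ 11 = q ^ 8 * q ^ 3 := by ring
    have h4 : (1 : ℝ) ≤ q ^ 2 := one_le_pow₀ (by linarith)
    have h5 : (2 : ℝ) ≤ q ^ 3 := by
      have : (q : ℝ) ^ 3 = q * q ^ 2 := by ring
      nlinarith
    have h6 : (0 : ℝ) < q ^ 8 := by positivity
    nlinarith
  have hLam0 : 0 < Lam := by
    rw [hLam]
    apply Real.log_pos
    rw [lt_div_iff₀ hlam0, one_mul]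
    refine hlam8.trans_lt ?_
    rw [div_lt_one (by positivity)]
    exact one_lt_pow₀ (by linarith) (by norm_num)
  -- number of low scales
  have hcard : (Low.card : ℝ) ≤ Lam := by
    have hsub : Low ⊆ range ⌊Lam⌋₊ := by
      intro j hj
      rw [mem_range]
      have h3 := h1 j hj
      have hlogq : 1 ≤ Real.log q := by
        rw [Real.le_log_iff_exp_le hq0]
        have := Real.exp_one_lt_three
        linarith
      have h4 : ((q : ℝ) ^ (2 ^ j)) ^ 8 < 1 / lam := by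
        rw [lt_div_iff₀ hlam0]; linarith
      have h5 := Real.log_lt_log (by positivity) h4
      rw [Real.log_pow, Real.log_pow] at h5
      push_cast at h5
      have h6 : (j : ℝ) + 1 ≤ 2 ^ j := by
        have : j < 2 ^ j := Nat.lt_two_pow_self
        exact_mod_cast this
      have h7 : (j : ℝ) + 1 ≤ Lam := by
        have h8 : (2 : ℝ) ^ j ≤ 2 ^ j * Real.log q := by
          have : (0 : ℝ) < 2 ^ j := by positivity
          nlinarith
        have h9 : (0 : ℝ) < 2 ^ j * Real.log q := by positivity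
        linarith
      have h8 : j + 1 ≤ ⌊Lam⌋₊ := by
        apply Nat.le_floor
        push_cast
        exact h7
      omega
    have h3 := Finset.card_le_card hsub
    rw [Finset.card_range] at h3
    have h4 : (Low.card : ℝ) ≤ (⌊Lam⌋₊ : ℝ) := by exact_mod_cast h3
    exact h4.trans (Nat.floor_le hLam0.le)
  set sl := Real.sqrt lam with hsl
  have hsl0 : 0 < sl := Real.sqrt_pos.2 hlam0
  have hsl2 : sl * sl = lam := Real.mul_self_sqrt hlam0.le
  have hslexp : sl = Real.exp (-(Lam / 4)) ^ 2 := by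
    rw [hsl, Real.sqrt_eq_iff_mul_self_eq hlam0.le (by positivity), ← hexpLam,
      ← Real.exp_nat_mul, ← Real.exp_add]
    congr 1
    push_cast
    ring
  have hslLam : Lam * sl ≤ 4 / (q : ℝ) ^ 2 := by
    have h3 : Lam / 4 ≤ Real.exp (Lam / 4) := by
      have := Real.add_one_le_exp (Lam / 4)
      linarith
    have h4 : Real.exp (Lam / 4) * Real.exp (-(Lam / 4)) = 1 := by
      rw [← Real.exp_add]; simp
    have hE : 0 < Real.exp (-(Lam / 4)) := Real.exp_pos _
    have h5 : Lam * sl ≤ 4 * Real.exp (-(Lam / 4)) := by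
      rw [hslexp]
      have h6 : Lam / 4 * Real.exp (-(Lam / 4)) ≤ 1 := by
        rw [← h4]; gcongr
      nlinarith
    have h6 : Real.exp (-(Lam / 4)) ≤ 1 / (q : ℝ) ^ 2 := by
      have h7 : Real.exp (-(Lam / 4)) ^ 4 = lam := by
        rw [← Real.exp_nat_mul, ← hexpLam]
        congr 1
        push_cast; ring
      by_contra hcon
      push Not at hcon
      have h8 : (1 / (q : ℝ) ^ 2) ^ 4 < Real.exp (-(Lam / 4)) ^ 4 := by gcongr
      rw [h7] at h8
      have h9 : (1 / (q : ℝ) ^ 2) ^ 4 = 1 / (q : ℝ) ^ 8 := by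
        rw [div_pow, one_pow, ← pow_mul]
      rw [h9] at h8
      linarith
    calc Lam * sl ≤ 4 * Real.exp (-(Lam / 4)) := h5
      _ ≤ 4 * (1 / (q : ℝ) ^ 2) := by gcongr
      _ = 4 / (q : ℝ) ^ 2 := by ring
  -- each term
  have hterm : ∀ j ∈ Low, n j ≤ 16 * J / (q : ℝ) ^ 2 * (1 / 2) ^ j + (4 * J * sl + 2) := by
    intro j hj
    refine (hn j hj).trans ?_
    set B := (q : ℝ) ^ (2 ^ j) with hB
    have hBq : (q : ℝ) * 2 ^ j ≤ B := by
      have h3 : (q : ℝ) ^ (j + 1) ≤ B := by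
        rw [hB]
        apply pow_le_pow_right₀ (by linarith)
        exact Nat.succ_le_of_lt Nat.lt_two_pow_self
      refine le_trans ?_ h3
      rw [pow_succ, mul_comm]
      gcongr
      linarith
    have hBq1 : (q : ℝ) ≤ B := by
      have : (1 : ℝ) ≤ 2 ^ j := one_le_pow₀ (by norm_num)
      nlinarith
    have hB0 : 0 < B := by linarith
    have hB1 : 1 ≤ B := by linarith
    have e1 : 8 * (J : ℝ) * (B ^ 4 * (1 / B ^ w)) ≤ 8 * J * (1 / B ^ 2) := by
      gcongr
      rw [mul_one_div, div_le_div_iff₀ (by positivity) (by positivity), ← pow_add, one_mul]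
      exact pow_le_pow_right₀ hB1 (by omega)
    have e2 : 4 * (1 / B ^ w) / lam ≤ 8 * J * (1 / B ^ 2) := by
      have h3 : 4 * (1 / B ^ w) / lam = 4 * (1 / B ^ w) * (1 / lam) := by ring
      rw [h3]
      calc 4 * (1 / B ^ w) * (1 / lam) ≤ 4 * (1 / B ^ w) * (2 * (q : ℝ) ^ 5 * J) := by gcongr
        _ ≤ 4 * (1 / B ^ w) * (2 * B ^ 5 * J) := by gcongr
        _ = 8 * J * (B ^ 5 / B ^ w) := by ring
        _ ≤ 8 * J * (1 / B ^ 2) := by
          apply mul_le_mul_of_nonneg_left _ (by positivity)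
          rw [div_le_div_iff₀ (by positivity) (by positivity), ← pow_add, one_mul]
          exact pow_le_pow_right₀ hB1 (by omega)
    have e3 : 1 / B ^ 2 ≤ 1 / (q : ℝ) ^ 2 * (1 / 2) ^ j := by
      have h2 : 1 / (q : ℝ) ^ 2 * (1 / 2) ^ j = 1 / (q ^ 2 * 2 ^ j) := by
        rw [one_div_pow, one_div_mul_one_div]
      rw [h2]
      apply one_div_le_one_div_of_le (by positivity)
      have h3 : ((q : ℝ) * 2 ^ j) ^ 2 ≤ B ^ 2 := by gcongr
      have h4 : ((q : ℝ) * 2 ^ j) ^ 2 = q ^ 2 * 2 ^ j * 2 ^ j := by ring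
      have h5 : (1 : ℝ) ≤ 2 ^ j := one_le_pow₀ (by norm_num)
      have h6 : (0 : ℝ) < q ^ 2 * 2 ^ j := by positivity
      nlinarith
    have e4 : lam * B ^ 4 ≤ sl := by
      have h3 : (sl * B ^ 4) ^ 2 < 1 := by
        have : (sl * B ^ 4) ^ 2 = lam * B ^ 8 := by rw [mul_pow, ← hsl2]; ring
        rw [this]; exact h1 j hj
      have h4 : sl * B ^ 4 < 1 := by
        by_contra hcon
        push Not at hcon
        have : 1 ≤ (sl * B ^ 4) ^ 2 := one_le_pow₀ hcon
        linarith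
      calc lam * B ^ 4 = sl * (sl * B ^ 4) := by rw [← hsl2]; ring
        _ ≤ sl * 1 := by gcongr
        _ = sl := mul_one _
    calc (4 * J * lam * B ^ 4 + 2) * (2 * (1 / B ^ w) / lam + 1)
        = 8 * (J : ℝ) * (B ^ 4 * (1 / B ^ w)) + 4 * (1 / B ^ w) / lam +
          (4 * J * (lam * B ^ 4) + 2) := by field_simp; ring
      _ ≤ 8 * J * (1 / B ^ 2) + 8 * J * (1 / B ^ 2) + (4 * J * sl + 2) := by gcongr
      _ = 16 * J * (1 / B ^ 2) + (4 * J * sl + 2) := by ring
      _ ≤ 16 * J * (1 / (q : ℝ) ^ 2 * (1 / 2) ^ j) + (4 * J * sl + 2) := by gcongr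
      _ = _ := by ring
  have hgeo : ∑ j ∈ Low, (1 / 2 : ℝ) ^ j ≤ 2 := by
    have h3 := summable_geometric_two.sum_le_tsum Low (fun i _ => by positivity)
    rwa [tsum_geometric_two] at h3
  -- Lam versus J
  have hLamJ : 2 * Lam ≤ J / 20 := by
    have h3 : (1 / lam) ≤ (J : ℝ) ^ 2 := by
      refine hinv.trans ?_
      have h4 : 2 * (q : ℝ) ^ 5 ≤ J := by
        refine le_trans ?_ hJq
        have : (q : ℝ) ^ 6 = q ^ 5 * q := by ring
        rw [this]
        have : (0 : ℝ) < q ^ 5 := by positivity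
        nlinarith
      nlinarith
    have h4 : Lam ≤ 2 * Real.log J := by
      have := Real.log_le_log (by positivity) h3
      rw [Real.log_pow] at this
      exact_mod_cast this
    set rJ := Real.sqrt (J : ℝ) with hrJ
    have hrr : rJ * rJ = J := Real.mul_self_sqrt hJ0.le
    have hrJ0 : 0 < rJ := Real.sqrt_pos.2 hJ0
    have h5 : Real.log J ≤ 2 * rJ := by
      have h6 : Real.log rJ = Real.log J / 2 := Real.log_sqrt hJ0.le
      have := Real.log_le_sub_one_of_pos hrJ0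
      linarith
    have h6 : 160 ≤ rJ := by
      rw [hrJ]
      apply Real.le_sqrt_of_sq_le
      refine le_trans ?_ hJq
      have : (60 : ℝ) ^ 6 ≤ (q : ℝ) ^ 6 := by gcongr
      norm_num at this ⊢
      linarith
    nlinarith
  have hq2 : (3600 : ℝ) ≤ (q : ℝ) ^ 2 := by nlinarith
  have hs0 : 0 < 4 * (J : ℝ) * sl + 2 := by positivity
  calc ∑ j ∈ Low, n j ≤ ∑ j ∈ Low, (16 * J / (q : ℝ) ^ 2 * (1 / 2) ^ j + (4 * J * sl + 2)) :=
        sum_le_sum hterm
    _ = 16 * J / (q : ℝ) ^ 2 * ∑ j ∈ Low, (1 / 2 : ℝ) ^ j + Low.card * (4 * J * sl + 2) := by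
        rw [sum_add_distrib, ← mul_sum, sum_const, nsmul_eq_mul]
    _ ≤ 16 * J / (q : ℝ) ^ 2 * 2 + Lam * (4 * J * sl + 2) := by gcongr
    _ = 32 * J / (q : ℝ) ^ 2 + 4 * J * (Lam * sl) + 2 * Lam := by ring
    _ ≤ 32 * J / (q : ℝ) ^ 2 + 4 * J * (4 / (q : ℝ) ^ 2) + J / 20 := by gcongr
    _ = 48 * J / (q : ℝ) ^ 2 + J / 20 := by ring
    _ ≤ J / 8 := by
        have : 48 * (J : ℝ) / (q : ℝ) ^ 2 ≤ J / 60 := by
          rw [div_le_div_iff₀ (by positivity) (by norm_num)]
          nlinarith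
        linarith

end Pool.Agent.Helper1.Stage
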