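import Mathlib
import Pool.Agent.Helper8.Defs
import Pool.Agent.Helper1.StageA
import Pool.Agent.Helper1.StageB
import Pool.Agent.Helper1.StageC
import Pool.Agent.Helper1.StageD

set_option autoImplicit false

open Finset Pool.Agent.Helper8

namespace Pool.Agent.Helper1.Stage

/-- the point is good at all scales as soon as it is good at the scales `q ^ (2 ^ j)` -/
lemma exists_scale (q b : ℕ) (hq : 2 ≤ q) (hb : q ≤ b) :
    ∃ j : ℕ, ((q : ℝ) ^ (2 ^ j) ≤ b ∧ (b : ℝ) < ((q : ℝ) ^ (2 ^ j)) ^ 2) := by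
  classical
  have hex : ∃ j : ℕ, b < (q ^ (2 ^ j)) ^ 2 := by
    refine ⟨b, ?_⟩
    calc b < 2 ^ b := Nat.lt_two_pow_self
      _ < 2 ^ (2 ^ b) := by
          apply Nat.pow_lt_pow_right (by norm_num)
          exact Nat.lt_two_pow_self
      _ ≤ q ^ (2 ^ b) := Nat.pow_le_pow_left hq _
      _ ≤ (q ^ (2 ^ b)) ^ 2 := Nat.le_self_pow (by norm_num) _
  set j := Nat.find hex with hj
  have h1 : b < (q ^ (2 ^ j)) ^ 2 := Nat.find_spec hex
  refine ⟨j, ?_, by exact_mod_cast h1⟩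
  rcases Nat.eq_zero_or_pos j with h0 | hpos
  · rw [h0]
    simp only [pow_zero, pow_one]
    exact_mod_cast hb
  · have h2 := Nat.find_min hex (m := j - 1) (by omega)
    push Not at h2
    have h3 : (q ^ (2 ^ (j - 1))) ^ 2 = q ^ (2 ^ j) := by
      rw [← pow_mul, ← pow_succ]
      congr 2
      omega
    rw [h3] at h2
    exact_mod_cast h2

/-- a good exponent exists -/
lemma exists_good (C : ℝ) (hC : 1 ≤ C)
    (hden : ∀ w : ℕ, 104 ≤ w → ∀ (r1 r2 f1 f2 : ℤ) (J : ℕ) (B r v h : ℝ),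
    r = (2 : ℝ) ^ r1 * (3 : ℝ) ^ r2 → v = (2 : ℝ) ^ f1 * (3 : ℝ) ^ f2 →
    h = |(f1 : ℝ)| * Real.log 2 + |(f2 : ℝ)| * Real.log 3 →
    1 ≤ r → 1 < v → 1 ≤ J → r * v ^ J ≤ 3 → 16 ≤ B → 1 ≤ Real.log v * B ^ 8 →
    ∀ s : Finset ℕ, (∀ c ∈ s, c ≤ J ∧ IsBad w r v B c) →
      (s.card : ℝ) ≤ C * (Real.log B / h + 1) *
        (Real.sqrt (SS w J B h) + SS w J B h *
          Real.sqrt (Real.log (J * h / Real.log B + 2)) / (Real.log (SS w J B h)) ^ 2))
    (w : ℕ) (hw : 104 ≤ w) (hwC : (3072 * C * Zc) ^ 2 ≤ w)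
    (q J : ℕ) (hq : 64 ≤ q) (hwJ : w ^ 2 ≤ J) (hJC : Real.exp ((5120 * C) ^ 2) ≤ J)
    (r1 r2 f1 f2 : ℤ) (r v h : ℝ)
    (hr : r = (2 : ℝ) ^ r1 * (3 : ℝ) ^ r2) (hv : v = (2 : ℝ) ^ f1 * (3 : ℝ) ^ f2)
    (hh : h = |(f1 : ℝ)| * Real.log 2 + |(f2 : ℝ)| * Real.log 3)
    (hr1 : 1 ≤ r) (hr2 : r ≤ 2) (hv1 : 1 < v)
    (hlam : Real.log v ≤ 2 / (q : ℝ) ^ 11) (hinv : 1 / Real.log v ≤ 2 * (q : ℝ) ^ 5 * J)
    (hJq : (q : ℝ) ^ 6 / 4 ≤ J) (hJl : J * Real.log v ≤ 1) (hrv : r * v ^ J ≤ 3)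
    (hhpos : 0 < h) (hhJ : h ≤ (J : ℝ) ^ 2)
    (hheight : |(r1 : ℝ)| * Real.log 2 + |(r2 : ℝ)| * Real.log 3 ≤ J * h) :
    ∃ c : ℕ, 1 ≤ c ∧ c ≤ J ∧ ∀ j : ℕ, ¬ IsBad w r v ((q : ℝ) ^ (2 ^ j)) c := by
  classical
  by_contra hcon
  push Not at hcon
  have hq' : (64 : ℝ) ≤ q := by exact_mod_cast hq
  have hq0 : (0 : ℝ) < q := by linarith
  have hw' : (104 : ℝ) ≤ w := by exact_mod_cast hw
  have hlq : 1 ≤ Real.log q := by
    rw [Real.le_log_iff_exp_le hq0]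
    have := Real.exp_one_lt_three
    linarith
  have hJ0 : (0 : ℝ) < J := lt_of_lt_of_le (by positivity) hJq
  have hJ1 : 1 ≤ J := by
    have : 0 < J := by exact_mod_cast hJ0
    omega
  set lam := Real.log v with hlamdef
  have hlam0 : 0 < lam := Real.log_pos hv1
  set B : ℕ → ℝ := fun j => (q : ℝ) ^ (2 ^ j) with hB
  have hlogB : ∀ j, Real.log (B j) = 2 ^ j * Real.log q := by
    intro j
    rw [hB]
    simp only
    rw [Real.log_pow]
    push_cast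
    rfl
  have hB16 : ∀ j, 16 ≤ B j := by
    intro j
    have h1 : (q : ℝ) ^ 1 ≤ (q : ℝ) ^ (2 ^ j) := by
      apply pow_le_pow_right₀ (by linarith)
      exact Nat.one_le_two_pow
    rw [pow_one] at h1
    simp only [hB]
    linarith
  set Bad : ℕ → Finset ℕ := fun j => (Finset.Icc 1 J).filter fun c => IsBad w r v (B j) c
    with hBad
  have hBadmem : ∀ j, ∀ c ∈ Bad j, c ≤ J ∧ IsBad w r v (B j) c := by
    intro j c hc
    simp only [hBad, Finset.mem_filter, Finset.mem_Icc] at hc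
    exact ⟨hc.1.2, hc.2⟩
  have htop : ∀ j, ∀ c, c ≤ J → IsBad w r v (B j) c →
      ((w : ℝ) - 1) * (2 ^ j * Real.log q) < 2 * J * h := by
    intro j c hc hbad
    have h1 := top_bound w J (B j) r v h r1 r2 f1 f2 (by omega) (by linarith [hB16 j]) hr hv hh c
      hc hbad
    rw [hlogB] at h1
    linarith
  set T := ⌈2 * (J : ℝ) * h⌉₊ + 1 with hT
  have hTlt : ∀ j, ((w : ℝ) - 1) * (2 ^ j * Real.log q) < 2 * J * h → j < T := by
    intro j hj
    have h1 : (j : ℝ) ≤ 2 ^ j := by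
      have : j < 2 ^ j := Nat.lt_two_pow_self
      exact_mod_cast this.le
    have h2 : (2 : ℝ) ^ j ≤ 2 ^ j * Real.log q := by
      have : (0 : ℝ) < 2 ^ j := by positivity
      nlinarith
    have h3 : 2 ^ j * Real.log q ≤ ((w : ℝ) - 1) * (2 ^ j * Real.log q) := by
      have : 0 < 2 ^ j * Real.log q := by positivity
      nlinarith
    have h4 : (j : ℝ) < 2 * J * h := by linarith
    have h5 : (j : ℝ) < (⌈2 * (J : ℝ) * h⌉₊ : ℝ) := h4.trans_le (Nat.le_ceil _)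
    have h6 : j < ⌈2 * (J : ℝ) * h⌉₊ := by exact_mod_cast h5
    omega
  set R := (range T).filter fun j => (Bad j).Nonempty with hR
  set n : ℕ → ℝ := fun j => ((Bad j).card : ℝ) with hn
  -- union bound
  have hcover : (J : ℝ) ≤ ∑ j ∈ R, n j := by
    have hsub : Finset.Icc 1 J ⊆ R.biUnion Bad := by
      intro c hc
      have hc' := Finset.mem_Icc.1 hc
      obtain ⟨j, hj⟩ := hcon c hc'.1 hc'.2
      have hcj : c ∈ Bad j := by
        simp only [hBad, Finset.mem_filter]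
        exact ⟨hc, hj⟩
      rw [Finset.mem_biUnion]
      refine ⟨j, ?_, hcj⟩
      simp only [hR, Finset.mem_filter, Finset.mem_range]
      exact ⟨hTlt j (htop j c hc'.2 hj), ⟨c, hcj⟩⟩
    have h1 := (Finset.card_le_card hsub).trans Finset.card_biUnion_le
    rw [Nat.card_Icc] at h1
    have h2 : J ≤ ∑ j ∈ R, (Bad j).card := by omega
    calc (J : ℝ) ≤ ((∑ j ∈ R, (Bad j).card : ℕ) : ℝ) := by exact_mod_cast h2
      _ = ∑ j ∈ R, n j := by rw [Nat.cast_sum]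
  have hdens : ∀ j, 1 ≤ lam * (B j) ^ 8 → n j ≤ C * ((2 ^ j * Real.log q) / h + 1) *
      (Real.sqrt (4 * J / max 1 ((w : ℝ) / 2 * (2 ^ j * Real.log q) / h) + 1) +
        (4 * J / max 1 ((w : ℝ) / 2 * (2 ^ j * Real.log q) / h) + 1) *
          Real.sqrt (Real.log (J * h / (2 ^ j * Real.log q) + 2)) /
          (Real.log (4 * J / max 1 ((w : ℝ) / 2 * (2 ^ j * Real.log q) / h) + 1)) ^ 2) := by
    intro j hj
    have h1 := hden w hw r1 r2 f1 f2 J (B j) r v h hr hv hh hr1 hv1 hJ1 hrv (hB16 j) hj (Bad j)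
      (hBadmem j)
    unfold SS at h1
    rw [hlogB] at h1
    exact h1
  have hlow : ∑ j ∈ R.filter (fun j => lam * (B j) ^ 8 < 1), n j ≤ J / 8 := by
    apply low_sum w J q hw (by omega) lam hlam0 hlam hinv hJq n
    · intro j hj
      exact (Finset.mem_filter.1 hj).2
    · intro j _
      exact low_count w J (B j) r v hw (hB16 j) hr1 hr2 hv1 hJl (Bad j) (hBadmem j)
  have hmid : ∑ j ∈ (R.filter (fun j => ¬ lam * (B j) ^ 8 < 1)).filter
      (fun j => 2 ^ j * Real.log q < h), n j ≤ J / 8 := by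
    apply mid_sum C hC w J hw hwJ hJC (Real.log q) h hlq hhpos hhJ n
    · intro j hj
      exact (Finset.mem_filter.1 hj).2
    · intro j hj
      apply hdens
      have := (Finset.mem_filter.1 (Finset.mem_filter.1 hj).1).2
      push Not at this
      exact this
  have hwin : ∑ j ∈ (R.filter (fun j => ¬ lam * (B j) ^ 8 < 1)).filter
      (fun j => ¬ 2 ^ j * Real.log q < h), n j ≤ J / 8 := by
    apply win_sum C hC w J hw hwC (Real.log q) h hlq hhpos hJ1 n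
    · intro j hj
      have := (Finset.mem_filter.1 hj).2
      push Not at this
      exact this
    · intro j hj
      have h1 := (Finset.mem_filter.1 (Finset.mem_filter.1 hj).1).1
      simp only [hR, Finset.mem_filter] at h1
      obtain ⟨c, hc⟩ := h1.2
      exact htop j c (hBadmem j c hc).1 (hBadmem j c hc).2
    · intro j hj
      apply hdens
      have := (Finset.mem_filter.1 (Finset.mem_filter.1 hj).1).2
      push Not at this
      exact this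
  have e1 := Finset.sum_filter_add_sum_filter_not R (fun j => lam * (B j) ^ 8 < 1) n
  have e2 := Finset.sum_filter_add_sum_filter_not (R.filter (fun j => ¬ lam * (B j) ^ 8 < 1))
    (fun j => 2 ^ j * Real.log q < h) n
  linarith

theorem stageStmt (hD : DensityStmt) : StageStmt := by
  obtain ⟨C, hC, hden⟩ := hD
  obtain ⟨w, hw, hwC⟩ : ∃ w : ℕ, 104 ≤ w ∧ (3072 * C * Zc) ^ 2 ≤ w :=
    ⟨max 104 ⌈(3072 * C * Zc) ^ 2⌉₊, le_max_left _ _, by
      have h1 := Nat.le_ceil ((3072 * C * Zc) ^ 2)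
      have h2 : ((⌈(3072 * C * Zc) ^ 2⌉₊ : ℕ) : ℝ) ≤
        ((max 104 ⌈(3072 * C * Zc) ^ 2⌉₊ : ℕ) : ℝ) := by exact_mod_cast le_max_right _ _
      linarith⟩
  set E := ⌈Real.exp ((5120 * C) ^ 2)⌉₊ with hE
  refine ⟨w, 64 + w ^ 2 + E, ?_⟩
  intro p q hqN hpq hps hqs hlt hlt2
  have hq : 64 ≤ q := by
    have : 0 ≤ w ^ 2 := Nat.zero_le _
    omega
  have hqw : w ^ 2 ≤ q := by omega
  have hqE : E ≤ q := by
    have : 0 ≤ w ^ 2 := Nat.zero_le _
    omega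
  have hq' : (64 : ℝ) ≤ q := by exact_mod_cast hq
  have hq0 : (0 : ℝ) < q := by linarith
  have hp0 : (0 : ℝ) < p := by
    have : 0 < p := by omega
    exact_mod_cast this
  -- r
  obtain ⟨r1, r2, hr, hht⟩ := quotient_exponents p q hpq hps hqs
  set r : ℝ := (p : ℝ) / q with hrdef
  have hr1 : 1 < r := by
    rw [hrdef, lt_div_iff₀ hq0, one_mul]
    exact_mod_cast hlt
  have hr2 : r ≤ 2 - 1 / q := by
    have h1 : (p : ℝ) + 1 ≤ 2 * q := by exact_mod_cast hlt2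
    rw [hrdef, div_le_iff₀ hq0, sub_mul, one_div_mul_cancel hq0.ne']
    linarith
  have hqinv : (0 : ℝ) < 1 / q := by positivity
  -- v
  have hF : 2 ≤ q ^ 11 := by
    calc 2 ≤ q := by omega
      _ ≤ q ^ 11 := Nat.le_self_pow (by norm_num) _
  obtain ⟨f1, f2, hl0, hl1, hh0, hh1⟩ := exists_exponents (q ^ 11) hF
  push_cast at hl1 hh1
  set h : ℝ := |(f1 : ℝ)| * Real.log 2 + |(f2 : ℝ)| * Real.log 3 with hh
  set v : ℝ := (2 : ℝ) ^ f1 * (3 : ℝ) ^ f2 with hv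
  have hv0 : 0 < v := by positivity
  have hlogv : Real.log v = (f1 : ℝ) * Real.log 2 + f2 * Real.log 3 := by
    rw [hv, Real.log_mul (by positivity) (by positivity), Real.log_zpow, Real.log_zpow]
  rw [← hlogv] at hl0 hl1
  set lam := Real.log v with hlam
  have hv1 : 1 < v := by
    by_contra hcon
    push Not at hcon
    have := Real.log_nonpos hv0.le hcon
    linarith
  have hhpos : 0 < h := by
    have := log2_gt
    linarith
  -- J
  set J := ⌊1 / (q : ℝ) ^ 5 / lam⌋₊ with hJ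
  have hJle : (J : ℝ) ≤ 1 / (q : ℝ) ^ 5 / lam := Nat.floor_le (by positivity)
  have hJlt : 1 / (q : ℝ) ^ 5 / lam < J + 1 := Nat.lt_floor_add_one _
  have hJlam : J * lam ≤ 1 / (q : ℝ) ^ 5 := by
    rwa [le_div_iff₀ hl0] at hJle
  have hq5 : (64 : ℝ) ≤ (q : ℝ) ^ 5 := by
    calc (64 : ℝ) ≤ q := hq'
      _ ≤ (q : ℝ) ^ 5 := le_self_pow₀ (by linarith) (by norm_num)
  have hJbig : (q : ℝ) ^ 6 / 4 ≤ J := by
    have h1 : (q : ℝ) ^ 6 / 2 ≤ 1 / (q : ℝ) ^ 5 / lam := by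
      rw [le_div_iff₀ hl0]
      calc (q : ℝ) ^ 6 / 2 * lam ≤ (q : ℝ) ^ 6 / 2 * (2 / (q : ℝ) ^ 11) := by gcongr
        _ = 1 / (q : ℝ) ^ 5 := by field_simp
    have h2 : (64 : ℝ) ≤ (q : ℝ) ^ 6 := by
      calc (64 : ℝ) ≤ q := hq'
        _ ≤ (q : ℝ) ^ 6 := le_self_pow₀ (by linarith) (by norm_num)
    linarith
  have hJ0 : (0 : ℝ) < J := lt_of_lt_of_le (by positivity) hJbig
  have hJ1 : (1 : ℝ) ≤ J := by
    have : 0 < J := by exact_mod_cast hJ0
    exact_mod_cast this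
  have hinv : 1 / lam ≤ 2 * (q : ℝ) ^ 5 * J := by
    have h1 : 1 / lam = (q : ℝ) ^ 5 * (1 / (q : ℝ) ^ 5 / lam) := by field_simp
    rw [h1]
    calc (q : ℝ) ^ 5 * (1 / (q : ℝ) ^ 5 / lam) ≤ (q : ℝ) ^ 5 * (J + 1) := by gcongr
      _ ≤ (q : ℝ) ^ 5 * (J + J) := by gcongr
      _ = 2 * (q : ℝ) ^ 5 * J := by ring
  have hqJ : (q : ℝ) ≤ J := by
    refine le_trans ?_ hJbig
    have : (q : ℝ) ^ 6 = q ^ 5 * q := by ring
    rw [this]
    nlinarith
  have hqJn : q ≤ J := by exact_mod_cast hqJ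
  have hhJ : h ≤ (J : ℝ) ^ 2 := by
    have h1 : ((q : ℝ) ^ 6 / 4) ^ 2 ≤ (J : ℝ) ^ 2 := by gcongr
    have h2 : ((q : ℝ) ^ 6 / 4) ^ 2 = (q : ℝ) ^ 11 * q / 16 := by ring
    have h3 : (0 : ℝ) < (q : ℝ) ^ 11 := by positivity
    have h4 : (q : ℝ) ^ 11 * 64 ≤ (q : ℝ) ^ 11 * q := by gcongr
    linarith
  have hvc : ∀ c : ℕ, c ≤ J → v ^ c ≤ 1 + 2 / (q : ℝ) ^ 5 := by
    intro c hc
    have hcJ : (c : ℝ) ≤ J := by exact_mod_cast hc
    have h1 : v ^ c = Real.exp (c * lam) := by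
      rw [hlam, mul_comm, Real.exp_mul, Real.exp_log hv0, Real.rpow_natCast]
    have h2 : (c : ℝ) * lam ≤ 1 / (q : ℝ) ^ 5 := by
      calc (c : ℝ) * lam ≤ J * lam := by gcongr
        _ ≤ _ := hJlam
    have h3 : 0 ≤ (c : ℝ) * lam := by positivity
    have h4 : 1 / (q : ℝ) ^ 5 ≤ 1 := by
      rw [div_le_one (by positivity)]; linarith
    have h5 := Real.abs_exp_sub_one_le (x := c * lam) (by rw [abs_of_nonneg h3]; linarith)
    rw [abs_of_nonneg h3] at h5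
    have h6 := (le_abs_self _).trans h5
    rw [h1]
    have h7 : 2 / (q : ℝ) ^ 5 = 2 * (1 / (q : ℝ) ^ 5) := by ring
    rw [h7]
    linarith
  have hq5' : 2 / (q : ℝ) ^ 5 ≤ 1 / 32 := by
    rw [div_le_div_iff₀ (by positivity) (by norm_num)]
    linarith
  have hr2' : r ≤ 2 := by linarith
  have hrv : r * v ^ J ≤ 3 := by
    have h1 := hvc J le_rfl
    have h2 : 0 < v ^ J := by positivity
    nlinarith
  have hheight : |(r1 : ℝ)| * Real.log 2 + |(r2 : ℝ)| * Real.log 3 ≤ J * h := by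
    rw [hht]
    have h1 := Real.log_le_sub_one_of_pos hp0
    have h2 := Real.log_le_sub_one_of_pos hq0
    have h3 : (p : ℝ) < 2 * q := by exact_mod_cast hlt2
    have h4 : 0.6931 ≤ h := by
      have := log2_gt
      linarith
    have h5 : (q : ℝ) ^ 6 / 4 = q * (q ^ 5 / 4) := by ring
    have h6 : (q : ℝ) * 16 ≤ q * (q ^ 5 / 4) := by
      gcongr; linarith
    have h7 : (q : ℝ) * 16 ≤ J := by linarith
    have h8 : (q : ℝ) * 16 * 0.6931 ≤ J * h := by gcongr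
    linarith
  have hJE : Real.exp ((5120 * C) ^ 2) ≤ J := by
    have h1 : Real.exp ((5120 * C) ^ 2) ≤ (E : ℝ) := Nat.le_ceil _
    have h2 : (E : ℝ) ≤ q := by exact_mod_cast hqE
    linarith
  have hJl : J * lam ≤ 1 := by
    have h4 : 1 / (q : ℝ) ^ 5 ≤ 1 := by
      rw [div_le_one (by positivity)]; linarith
    linarith
  obtain ⟨c, hc1, hcJ, hgood⟩ := exists_good C hC hden w hw hwC q J hq (hqw.trans hqJn) hJE
    r1 r2 f1 f2 r v h hr hv hh hr1.le hr2' hv1 hl1 hinv hJbig hJl hrv hhpos hhJ hheight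
  -- the new fraction
  have hval : r * v ^ c = (2 : ℝ) ^ (r1 + c * f1) * (3 : ℝ) ^ (r2 + c * f2) := by
    rw [hr, hv, zpow_add₀ (by norm_num), zpow_add₀ (by norm_num), mul_pow,
      mul_comm (c : ℤ) f1, mul_comm (c : ℤ) f2, zpow_mul, zpow_mul, zpow_natCast, zpow_natCast]
    ring
  have hvc1 : 1 < v ^ c := one_lt_pow₀ hv1 (by omega)
  have hrr' : r < r * v ^ c := by nlinarith
  have hdiff : r * v ^ c - r ≤ 4 / (q : ℝ) ^ 5 := by
    have h1 := hvc c hcJ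
    have h2 : r * v ^ c - r = r * (v ^ c - 1) := by ring
    rw [h2]
    calc r * (v ^ c - 1) ≤ 2 * (2 / (q : ℝ) ^ 5) := by
          apply mul_le_mul hr2' (by linarith) (by linarith) (by norm_num)
      _ = 4 / (q : ℝ) ^ 5 := by ring
  have h45 : 4 / (q : ℝ) ^ 5 ≤ 1 / (q : ℝ) ^ 4 := by
    rw [div_le_div_iff₀ (by positivity) (by positivity)]
    have : (q : ℝ) ^ 5 = q ^ 4 * q := by ring
    have h0 : (0 : ℝ) < q ^ 4 := by positivity
    nlinarith
  have h4q : 1 / (q : ℝ) ^ 4 < 1 / q := by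
    apply one_div_lt_one_div_of_lt hq0
    have : (q : ℝ) ^ 4 = q * q ^ 3 := by ring
    have h0 : (1 : ℝ) < q ^ 3 := one_lt_pow₀ (by linarith) (by norm_num)
    nlinarith
  obtain ⟨p', q', hpq', hp', hq'', hlt', hlt2', hfrac⟩ := fraction_of_exponents (r * v ^ c) _ _
    hval (by linarith) (by linarith)
  refine ⟨p', q', hpq', hp', hq'', hlt', hlt2', ?_, ?_, ?_⟩
  · rw [hfrac]; exact hrr'
  · rw [hfrac]; linarith
  · intro a b hqb hne
    rw [hfrac] at hne ⊢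
    by_contra hcon
    push Not at hcon
    obtain ⟨j, hj1, hj2⟩ := exists_scale q b (by omega) hqb
    exact hgood j ⟨a, b, hj1, hj2, hne, hcon⟩

end Pool.Agent.Helper1.Stage
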